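import Pool.Agent.H74.AffLocal

set_option autoImplicit false

namespace Pool.Agent.H74.Aff

open Set Filter Topology
open scoped ContDiff RealInnerProductSpace

/-- the dual cone -/
def dualCone (K : Set V) : Set V := {ν | ∀ x ∈ K, 0 ≤ ⟪ν, x⟫}

theorem isClosed_dualCone (K : Set V) : IsClosed (dualCone K) := by
  have : dualCone K = ⋂ x ∈ K, {ν : V | 0 ≤ ⟪ν, x⟫} := by
    ext ν; simp [dualCone]
  rw [this]
  exact isClosed_biInter fun x _ => isClosed_le continuous_const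
    (continuous_id.inner continuous_const)

theorem convex_dualCone (K : Set V) : Convex ℝ (dualCone K) := by
  intro a ha b hb s t hs ht _ x hx
  rw [inner_add_left, inner_smul_left, inner_smul_left]
  simp only [conj_trivial]
  have := ha x hx; have := hb x hx
  positivity

theorem smul_mem_dualCone {K : Set V} {ν : V} (hν : ν ∈ dualCone K) {t : ℝ} (ht : 0 ≤ t) :
    t • ν ∈ dualCone K := by
  intro x hx
  rw [inner_smul_left]
  simp only [conj_trivial]
  have := hν x hx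
  positivity

namespace IsRegularCone

variable {K : Set V} (hK : IsRegularCone K)
include hK

theorem zero_mem : (0 : V) ∈ K := by
  obtain ⟨e, he⟩ := hK.interior_nonempty
  have := hK.smul_mem e (interior_subset he) 0 le_rfl
  simpa using this

theorem add_mem {x y : V} (hx : x ∈ K) (hy : y ∈ K) : x + y ∈ K := by
  have h1 := hK.convex hx hy (a := 1 / 2) (b := 1 / 2) (by norm_num) (by norm_num) (by norm_num)
  have h2 := hK.smul_mem _ h1 2 (by norm_num)
  rwa [smul_add, smul_smul, smul_smul, show (2 : ℝ) * (1 / 2) = 1 by norm_num, one_smul,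
    one_smul] at h2

theorem interior_add {x y : V} (hx : x ∈ interior K) (hy : y ∈ K) : x + y ∈ interior K := by
  rw [mem_interior] at hx ⊢
  obtain ⟨U, hU, hUo, hxU⟩ := hx
  refine ⟨(fun z => z - y) ⁻¹' U, ?_, hUo.preimage (by fun_prop), by simpa using hxU⟩
  intro z hz
  have := hK.add_mem (hU hz) hy
  simpa using this

theorem zero_notMem_interior : (0 : V) ∉ interior K := by
  intro h
  rw [mem_interior_iff_mem_nhds, Metric.mem_nhds_iff] at h
  obtain ⟨ε, hε, hb⟩ := h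
  obtain ⟨v, hv⟩ := exists_ne (0 : V)
  have hn : 0 < ‖v‖ := norm_pos_iff.2 hv
  set w : V := (ε / 2 / ‖v‖) • v with hw
  have hwn : ‖w‖ = ε / 2 := by
    rw [hw, norm_smul, Real.norm_of_nonneg (by positivity)]
    field_simp
  have h1 : w ∈ K := hb (by rw [mem_ball_zero_iff, hwn]; linarith)
  have h2 : -w ∈ K := hb (by rw [mem_ball_zero_iff, norm_neg, hwn]; linarith)
  have h3 := hK.pointed w h1 h2
  rw [h3, norm_zero] at hwn
  linarith

theorem ne_zero_of_interior {x : V} (hx : x ∈ interior K) : x ≠ 0 := by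
  rintro rfl; exact hK.zero_notMem_interior hx

theorem interior_smul {x : V} (hx : x ∈ interior K) {t : ℝ} (ht : 0 < t) :
    t • x ∈ interior K := by
  rw [mem_interior] at hx ⊢
  obtain ⟨U, hU, hUo, hxU⟩ := hx
  refine ⟨(fun z => t⁻¹ • z) ⁻¹' U, ?_, hUo.preimage (by fun_prop), ?_⟩
  · intro z hz
    have := hK.smul_mem _ (hU hz) t ht.le
    simpa [smul_smul, mul_inv_cancel₀ ht.ne'] using this
  · simpa [smul_smul, inv_mul_cancel₀ ht.ne'] using hxU

theorem exists_bound {ν : V} (h : ∀ x ∈ K, x ≠ 0 → 0 < ⟪ν, x⟫) :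
    ∃ c : ℝ, 0 < c ∧ ∀ x ∈ K, c * ‖x‖ ≤ ⟪ν, x⟫ := by
  have hc : IsCompact (K ∩ Metric.sphere (0 : V) 1) :=
    (isCompact_sphere _ _).inter_left hK.closed
  have hne : (K ∩ Metric.sphere (0 : V) 1).Nonempty := by
    obtain ⟨e, he⟩ := hK.interior_nonempty
    have h0 := hK.ne_zero_of_interior he
    refine ⟨‖e‖⁻¹ • e, hK.smul_mem _ (interior_subset he) _ (by positivity), ?_⟩
    rw [mem_sphere_zero_iff_norm, norm_smul, norm_inv, norm_norm]
    exact inv_mul_cancel₀ (norm_ne_zero_iff.2 h0)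
  obtain ⟨x0, hx0, hmin⟩ := hc.exists_isMinOn hne
    (f := fun x : V => ⟪ν, x⟫) (by fun_prop)
  have hx00 : x0 ≠ 0 := by
    rintro rfl
    simp at hx0
  refine ⟨⟪ν, x0⟫, h x0 hx0.1 hx00, fun x hx => ?_⟩
  rcases eq_or_ne x 0 with rfl | hx'
  · simp
  · have hn : 0 < ‖x‖ := norm_pos_iff.2 hx'
    have hm : ‖x‖⁻¹ • x ∈ K ∩ Metric.sphere (0 : V) 1 := by
      refine ⟨hK.smul_mem _ hx _ (by positivity), ?_⟩
      rw [mem_sphere_zero_iff_norm, norm_smul, norm_inv, norm_norm]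
      exact inv_mul_cancel₀ hn.ne'
    have := hmin hm
    simp only [mem_setOf_eq, inner_smul_right] at this
    calc ⟪ν, x0⟫ * ‖x‖ ≤ (‖x‖⁻¹ * ⟪ν, x⟫) * ‖x‖ := by gcongr
      _ = ⟪ν, x⟫ := by field_simp

omit hK in
theorem dual_mem_of_bound {ν : V} {c : ℝ} (h : ∀ x ∈ K, c * ‖x‖ ≤ ⟪ν, x⟫) {μ : V}
    (hμ : ‖μ - ν‖ ≤ c) : μ ∈ dualCone K := by
  intro x hx
  have h1 := h x hx
  have h2 : |⟪μ - ν, x⟫| ≤ ‖μ - ν‖ * ‖x‖ := abs_real_inner_le_norm _ _
  have h3 : ⟪μ, x⟫ = ⟪ν, x⟫ + ⟪μ - ν, x⟫ := by rw [inner_sub_left]; ring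
  have h4 : ‖μ - ν‖ * ‖x‖ ≤ c * ‖x‖ := by gcongr
  have h5 := (abs_le.1 h2).1
  linarith

theorem mem_interior_dual {ν : V} (h : ∀ x ∈ K, x ≠ 0 → 0 < ⟪ν, x⟫) :
    ν ∈ interior (dualCone K) := by
  obtain ⟨c, hc, h1⟩ := hK.exists_bound h
  rw [mem_interior_iff_mem_nhds, Metric.mem_nhds_iff]
  refine ⟨c, hc, fun μ hμ => dual_mem_of_bound h1 ?_⟩
  rw [mem_ball_iff_norm] at hμ
  exact hμ.le

omit hK in
theorem pos_of_mem_interior_dual {ν : V} (h : ν ∈ interior (dualCone K)) {x : V} (hx : x ∈ K)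
    (hx0 : x ≠ 0) : 0 < ⟪ν, x⟫ := by
  rw [mem_interior_iff_mem_nhds, Metric.mem_nhds_iff] at h
  obtain ⟨ε, hε, hb⟩ := h
  have hn : 0 < ‖x‖ := norm_pos_iff.2 hx0
  have h1 : ν - (ε / 2 / ‖x‖) • x ∈ dualCone K := by
    apply hb
    rw [mem_ball_iff_norm, sub_sub_cancel_left, norm_neg, norm_smul,
      Real.norm_of_nonneg (by positivity)]
    have : ε / 2 / ‖x‖ * ‖x‖ = ε / 2 := by field_simp
    rw [this]; linarith
  have h2 := h1 x hx
  rw [inner_sub_left, inner_smul_left] at h2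
  simp only [conj_trivial] at h2
  have h3 : 0 < ε / 2 / ‖x‖ * ⟪x, x⟫ := by
    rw [real_inner_self_eq_norm_sq]; positivity
  linarith

end IsRegularCone

end Pool.Agent.H74.Aff
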