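import Pool.Agent.H74.AffCone

set_option autoImplicit false

namespace Pool.Agent.H74.Aff

open Set Filter Topology
open scoped ContDiff RealInnerProductSpace

theorem exists_local_rep {f : ℝ × ℝ → V} (hf : IsHyperbolicAffineSphere f) (q : ℝ × ℝ) {t : ℝ}
    (ht : 0 < t) : ∃ G : V → (ℝ × ℝ) × ℝ, ContDiffAt ℝ ∞ G (t • f q) ∧ G (t • f q) = (q, t) ∧
      ∀ᶠ x in 𝓝 (t • f q), (G x).2 • f (G x).1 = x := by
  set F : (ℝ × ℝ) × ℝ → V := fun z => z.2 • f z.1 with hF
  have hFs : ContDiff ℝ ∞ F := contDiff_snd.smul (hf.smooth.comp contDiff_fst)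
  have hfd : HasFDerivAt f (fderiv ℝ f q) q := (hf.smooth.differentiable (by simp) q).hasFDerivAt
  have hFd : HasFDerivAt F (((t : ℝ) • ((fderiv ℝ f q).comp
      (ContinuousLinearMap.fst ℝ (ℝ × ℝ) ℝ))) +
      (ContinuousLinearMap.snd ℝ (ℝ × ℝ) ℝ).smulRight (f q)) (q, t) := by
    have h1 : HasFDerivAt (fun z : (ℝ × ℝ) × ℝ => f z.1)
        ((fderiv ℝ f q).comp (ContinuousLinearMap.fst ℝ (ℝ × ℝ) ℝ)) (q, t) :=
      HasFDerivAt.comp (q, t) (f := Prod.fst) (g := f) hfd hasFDerivAt_fst
    have h2 : HasFDerivAt (fun z : (ℝ × ℝ) × ℝ => z.2)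
        (ContinuousLinearMap.snd ℝ (ℝ × ℝ) ℝ) (q, t) := hasFDerivAt_snd
    exact h2.smul h1
  set L : (ℝ × ℝ) × ℝ →L[ℝ] V := (((t : ℝ) • ((fderiv ℝ f q).comp
      (ContinuousLinearMap.fst ℝ (ℝ × ℝ) ℝ))) +
      (ContinuousLinearMap.snd ℝ (ℝ × ℝ) ℝ).smulRight (f q)) with hL
  have hLa : ∀ z, L z = t • D1 f q z.1 + z.2 • f q := by
    intro z; simp [hL, D1]
  have hinj : Function.Injective L := by
    rw [injective_iff_map_eq_zero]
    intro z hz
    rw [hLa] at hz
    have h1 : z.2 = 0 := by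
      have := congrArg (fun y => ⟪conormal f q, y⟫) hz
      simp only [inner_add_right, inner_smul_right, inner_conormal_D1, hf.inner_self,
        inner_zero_right] at this
      linarith
    rw [h1, zero_smul, add_zero, smul_eq_zero_iff_right ht.ne'] at hz
    have h2 : z.1 = 0 := by
      by_contra hne
      have hp := hf.pos q z.1 hne
      have h3 := hf.inner_D1_D1 q z.1 z.1
      rw [hz, inner_zero_right] at h3
      linarith
    exact Prod.ext h2 h1
  have hdim : Module.finrank ℝ ((ℝ × ℝ) × ℝ) = Module.finrank ℝ V := by simp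
  set e : ((ℝ × ℝ) × ℝ) ≃ₗ[ℝ] V :=
    LinearMap.linearEquivOfInjective (L : ((ℝ × ℝ) × ℝ) →ₗ[ℝ] V) hinj hdim with he
  have hFd' : HasFDerivAt F (e.toContinuousLinearEquiv : (ℝ × ℝ) × ℝ →L[ℝ] V) (q, t) := by
    have : (e.toContinuousLinearEquiv : (ℝ × ℝ) × ℝ →L[ℝ] V) = L := by
      ext z <;> simp [he]
    rw [this]; exact hFd
  have hc : ContDiffAt ℝ ∞ F (q, t) := hFs.contDiffAt
  refine ⟨hc.localInverse hFd' (by simp), ?_, ?_, ?_⟩
  · exact hc.to_localInverse hFd' (by simp)
  · exact hc.localInverse_apply_image hFd' (by simp)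
  · exact (hc.hasStrictFDerivAt' hFd' (by simp)).eventually_right_inverse

section
variable {f : ℝ × ℝ → V} {K : Set V} (hK : IsRegularCone K) (hf : IsHyperbolicAffineSphere f)
  (ha : IsAsymptoticTo f K)
include hK ha

theorem unique_rep {p p' : ℝ × ℝ} {t t' : ℝ} (ht : 0 < t) (ht' : 0 < t')
    (h : t • f p = t' • f p') : p = p' ∧ t = t' := by
  have hx : t • f p ∈ interior K := hK.interior_smul (ha.mem p) ht
  obtain ⟨r, _, hr⟩ := ha.ray _ hx
  have h1 : p = r := hr p ⟨t⁻¹, by positivity, by rw [smul_smul, inv_mul_cancel₀ ht.ne', one_smul]⟩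
  have h2 : p' = r := hr p' ⟨t'⁻¹, by positivity, by
    rw [h, smul_smul, inv_mul_cancel₀ ht'.ne', one_smul]⟩
  have h3 : p = p' := h1.trans h2.symm
  refine ⟨h3, ?_⟩
  rw [← h3, ← sub_eq_zero, ← sub_smul, smul_eq_zero] at h
  rcases h with h | h
  · linarith
  · exact absurd h (hK.ne_zero_of_interior (ha.mem p))

include hf

theorem exists_rep : ∃ (P : V → ℝ × ℝ) (v : V → ℝ), ∀ x ∈ interior K, 0 < v x ∧
    v x • f (P x) = x ∧ ContDiffAt ℝ ∞ P x ∧ ContDiffAt ℝ ∞ v x := by
  classical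
  have h1 : ∀ x : V, ∃ z : (ℝ × ℝ) × ℝ, x ∈ interior K → 0 < z.2 ∧ z.2 • f z.1 = x := by
    intro x
    by_cases hx : x ∈ interior K
    · obtain ⟨p, ⟨t, ht, hp⟩, _⟩ := ha.ray x hx
      exact ⟨(p, t⁻¹), fun _ => ⟨by positivity, by
        simp only [hp, smul_smul, inv_mul_cancel₀ ht.ne', one_smul]⟩⟩
    · exact ⟨0, fun h => absurd h hx⟩
  choose R hR using h1
  have h2 : ∀ x ∈ interior K, ContDiffAt ℝ ∞ R x := by
    intro x hx
    obtain ⟨hpos, hx'⟩ := hR x hx
    obtain ⟨G, hG1, hG2, hG3⟩ := exists_local_rep hf (R x).1 hpos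
    rw [hx'] at hG1 hG2 hG3
    refine hG1.congr_of_eventuallyEq ?_
    have hcont : ContinuousAt (fun y => (G y).2) x := (continuousAt_snd.comp hG1.continuousAt)
    have hpos' : ∀ᶠ y in 𝓝 x, 0 < (G y).2 := by
      apply hcont.eventually
      change ∀ᶠ y in 𝓝 (G x).2, 0 < y
      rw [hG2]
      exact lt_mem_nhds hpos
    filter_upwards [hG3, hpos', isOpen_interior.mem_nhds hx] with y hy1 hy2 hy3
    obtain ⟨k1, k2⟩ := hR y hy3
    obtain ⟨e1, e2⟩ := unique_rep hK ha k1 hy2 (k2.trans hy1.symm)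
    exact Prod.ext e1 e2
  exact ⟨fun x => (R x).1, fun x => (R x).2, fun x hx => ⟨(hR x hx).1, (hR x hx).2,
    contDiffAt_fst.comp x (h2 x hx), contDiffAt_snd.comp x (h2 x hx)⟩⟩

/-- the surface lies strictly above each of its tangent planes -/
theorem one_lt_inner {p q : ℝ × ℝ} (hpq : p ≠ q) : 1 < ⟪conormal f p, f q⟫ := by
  obtain ⟨P, v, hPv⟩ := exists_rep hK hf ha
  set d : V := f q - f p with hd
  set x : ℝ → V := fun s => f p + s • d with hx
  have hxd : ∀ s, HasDerivAt x d s := by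
    intro s
    have := ((hasDerivAt_id s).smul_const d).const_add (f p)
    rw [one_smul] at this
    exact this
  have hxs : ContDiff ℝ ∞ x := contDiff_const.add (contDiff_id.smul contDiff_const)
  have hmem : ∀ s ∈ Icc (0 : ℝ) 1, x s ∈ interior K := by
    intro s hs
    have := hK.convex.interior (ha.mem p) (ha.mem q) (a := 1 - s) (b := s) (by linarith [hs.2])
      hs.1 (by ring)
    have e : x s = (1 - s) • f p + s • f q := by
      simp only [hx, hd, smul_sub, sub_smul, one_smul]; abel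
    rw [e]; exact this
  set U : Set ℝ := x ⁻¹' interior K with hU
  have hUo : IsOpen U := isOpen_interior.preimage hxs.continuous
  set a : ℝ → ℝ × ℝ := fun s => P (x s) with ha'
  set w : ℝ → ℝ := fun s => v (x s) with hw'
  have hac : ∀ s ∈ U, ContDiffAt ℝ ∞ a s := fun s hs =>
    (hPv (x s) hs).2.2.1.comp s hxs.contDiffAt
  have hwc : ∀ s ∈ U, ContDiffAt ℝ ∞ w s := fun s hs =>
    (hPv (x s) hs).2.2.2.comp s hxs.contDiffAt
  have hwpos : ∀ s ∈ U, 0 < w s := fun s hs => (hPv (x s) hs).1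
  have hrep : ∀ s ∈ U, w s • f (a s) = x s := fun s hs => (hPv (x s) hs).2.1
  have hUn : ∀ s ∈ U, U ∈ 𝓝 s := fun s hs => hUo.mem_nhds hs
  have hdA : ∀ s ∈ U, HasDerivAt a (deriv a s) s := fun s hs =>
    ((hac s hs).differentiableAt (by simp)).hasDerivAt
  have hdW : ∀ s ∈ U, HasDerivAt w (deriv w s) s := fun s hs =>
    ((hwc s hs).differentiableAt (by simp)).hasDerivAt
  have hddA : ∀ s ∈ U, HasDerivAt (deriv a) (deriv (deriv a) s) s := fun s hs => by
    have : ContDiffAt ℝ ∞ (deriv a) s := by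
      have := (hac s hs).fderiv_right (m := ∞) (by simp)
      exact this.clm_apply contDiffAt_const
    exact (this.differentiableAt (by simp)).hasDerivAt
  have hddW : ∀ s ∈ U, HasDerivAt (deriv w) (deriv (deriv w) s) s := fun s hs => by
    have : ContDiffAt ℝ ∞ (deriv w) s := by
      have := (hwc s hs).fderiv_right (m := ∞) (by simp)
      exact this.clm_apply contDiffAt_const
    exact (this.differentiableAt (by simp)).hasDerivAt
  -- the first derivative of the relation
  have hfirst : ∀ s0 : ℝ, ∀ s ∈ U, ⟪conormal f (a s0), d⟫ =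
      deriv w s * ⟪conormal f (a s0), f (a s)⟫ +
        w s * ⟪conormal f (a s0), D1 f (a s) (deriv a s)⟫ := by
    intro s0 s hs
    have h1 : HasDerivAt (fun s => w s • f (a s))
        (w s • (fderiv ℝ f (a s)) (deriv a s) + deriv w s • f (a s)) s := by
      have h2 : HasDerivAt (fun s => f (a s)) ((fderiv ℝ f (a s)) (deriv a s)) s :=
        ((hf.smooth.differentiable (by simp) (a s)).hasFDerivAt).comp_hasDerivAt s (hdA s hs)
      exact (hdW s hs).smul h2
    have h3 : HasDerivAt x (w s • (fderiv ℝ f (a s)) (deriv a s) + deriv w s • f (a s)) s := by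
      refine h1.congr_of_eventuallyEq ?_
      filter_upwards [hUn s hs] with s' hs'
      exact (hrep s' hs').symm
    have h4 := (hxd s).unique h3
    rw [h4]
    simp only [inner_add_right, inner_smul_right, D1]
    ring
  have hne : ∀ s0 ∈ U, deriv a s0 ≠ 0 := by
    intro s0 hs0 h0
    have h1 : HasDerivAt (fun s => w s • f (a s))
        (w s0 • (fderiv ℝ f (a s0)) (deriv a s0) + deriv w s0 • f (a s0)) s0 := by
      have h2 : HasDerivAt (fun s => f (a s)) ((fderiv ℝ f (a s0)) (deriv a s0)) s0 :=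
        ((hf.smooth.differentiable (by simp) (a s0)).hasFDerivAt).comp_hasDerivAt s0 (hdA s0 hs0)
      exact (hdW s0 hs0).smul h2
    have h3 : HasDerivAt x (w s0 • (fderiv ℝ f (a s0)) (deriv a s0) + deriv w s0 • f (a s0))
        s0 := by
      refine h1.congr_of_eventuallyEq ?_
      filter_upwards [hUn s0 hs0] with s' hs'
      exact (hrep s' hs').symm
    have h4 := (hxd s0).unique h3
    rw [h0, map_zero, smul_zero, zero_add] at h4
    have hw0 := hwpos s0 hs0
    set c := deriv w s0 / w s0 with hc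
    have h5 : d = c • x s0 := by
      rw [h4, ← hrep s0 hs0, smul_smul, hc, div_mul_cancel₀ _ hw0.ne']
    have h6 : (1 - c * s0) • f q = (1 + c - c * s0) • f p := by
      have h7 : f q = f p + d := by rw [hd]; abel
      have h8 : d - (c * s0) • d = c • f p := by
        nth_rewrite 1 [h5]
        simp only [hx, smul_add, smul_smul]
        abel
      rw [h7]
      have h9 : (1 - c * s0) • (f p + d) = (1 - c * s0) • f p + (d - (c * s0) • d) := by
        rw [smul_add, sub_smul 1 (c * s0) d, one_smul]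
      rw [h9, h8, ← add_smul]
      congr 1; ring
    have hfp := hK.ne_zero_of_interior (ha.mem p)
    have hfq := hK.ne_zero_of_interior (ha.mem q)
    rcases eq_or_ne (1 - c * s0) 0 with h7 | h7
    · rw [h7, zero_smul] at h6
      have h8 : 1 + c - c * s0 = 0 := by
        rcases smul_eq_zero.1 h6.symm with h | h
        · exact h
        · exact absurd h hfp
      have h9 : c = 0 := by linarith
      rw [h9] at h7; simp at h7
    · set l := (1 + c - c * s0) / (1 - c * s0) with hl
      have h8 : f q = l • f p := by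
        rw [hl, div_eq_inv_mul, mul_smul, ← h6, smul_smul, inv_mul_cancel₀ h7, one_smul]
      rcases lt_trichotomy l 0 with h9 | h9 | h9
      · apply hfq
        apply hK.pointed _ (interior_subset (ha.mem q))
        rw [h8, ← neg_smul]
        exact hK.smul_mem _ (interior_subset (ha.mem p)) _ (by linarith)
      · rw [h9, zero_smul] at h8; exact hfq h8
      · have h10 : (1 : ℝ) • f q = l • f p := by rw [one_smul]; exact h8
        exact hpq (unique_rep hK ha one_pos h9 h10).1.symm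
  have hsecond : ∀ s0 ∈ U, deriv (deriv w) s0 < 0 := by
    intro s0 hs0
    set ν := conormal f (a s0) with hν
    set m : ℝ × ℝ → ℝ := fun r => ⟪ν, f r⟫ with hm
    have hms : ContDiff ℝ ∞ m := contDiff_const.inner ℝ hf.smooth
    have hmd : ∀ r X, fderiv ℝ m r X = ⟪ν, D1 f r X⟫ := by
      intro r X
      have := fderiv_inner_apply (𝕜 := ℝ) (f := fun _ : ℝ × ℝ => ν) (g := f) (x := r)
        (differentiableAt_const ν) (hf.smooth.differentiable (by simp) r) X
      simpa [D1] using this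
    -- second derivative
    have hD : HasDerivAt (fun s => ⟪ν, D1 f (a s) (deriv a s)⟫)
        (⟪ν, D2 f (a s0) (deriv a s0) (deriv a s0)⟫ + ⟪ν, D1 f (a s0) (deriv (deriv a) s0)⟫)
        s0 := by
      have h1 : HasDerivAt (fun s => fderiv ℝ f (a s))
          (fderiv ℝ (fderiv ℝ f) (a s0) (deriv a s0)) s0 :=
        (((hf.smooth.fderiv_right (m := ∞) (by simp)).differentiable (by simp)
          (a s0)).hasFDerivAt).comp_hasDerivAt s0 (hdA s0 hs0)
      have h2 := h1.clm_apply (hddA s0 hs0)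
      have h3 := (hasDerivAt_const s0 ν).inner ℝ h2
      simpa [D1, D2, inner_add_right] using h3
    have hE : HasDerivAt (fun s => ⟪ν, f (a s)⟫) ⟪ν, D1 f (a s0) (deriv a s0)⟫ s0 := by
      have h2 : HasDerivAt (fun s => f (a s)) ((fderiv ℝ f (a s0)) (deriv a s0)) s0 :=
        ((hf.smooth.differentiable (by simp) (a s0)).hasFDerivAt).comp_hasDerivAt s0 (hdA s0 hs0)
      have h3 := (hasDerivAt_const s0 ν).inner ℝ h2
      simpa [D1] using h3
    have hF := ((hddW s0 hs0).mul hE).add ((hdW s0 hs0).mul hD)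
    have hev : (fun _ : ℝ => ⟪ν, d⟫) =ᶠ[𝓝 s0] ((deriv w * fun s => ⟪ν, f (a s)⟫) +
        w * fun s => ⟪ν, D1 f (a s) (deriv a s)⟫) := by
      filter_upwards [hUn s0 hs0] with s hs
      exact hfirst s0 s hs
    have hG := hF.congr_of_eventuallyEq hev
    have h5 := (hasDerivAt_const s0 ⟪ν, d⟫).unique hG
    have h6 : ∀ X, ⟪ν, D1 f (a s0) X⟫ = 0 := fun X => inner_conormal_D1 f (a s0) X
    have h7 : ⟪ν, f (a s0)⟫ = 1 := hf.inner_self _
    have h8 : ⟪ν, D2 f (a s0) (deriv a s0) (deriv a s0)⟫ =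
      blaschke f (a s0) (deriv a s0) (deriv a s0) := inner_conormal_D2 f _ _ _
    rw [h6, h6, h7, h8] at h5
    have h9 := hf.pos (a s0) (deriv a s0) (hne s0 hs0)
    have h10 := hwpos s0 hs0
    have h11 : 0 < w s0 * blaschke f (a s0) (deriv a s0) (deriv a s0) := by positivity
    linarith
  -- conclusion
  have h0U : (0 : ℝ) ∈ U := hmem 0 (by simp)
  have h1U : (1 : ℝ) ∈ U := hmem 1 (by simp)
  have hx0 : x 0 = f p := by simp [hx]
  have hx1 : x 1 = f q := by simp [hx, hd]
  have ha0 : a 0 = p ∧ w 0 = 1 := by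
    have h1 := hrep 0 h0U
    rw [hx0] at h1
    exact unique_rep hK ha (hwpos 0 h0U) one_pos (by rw [h1, one_smul])
  have ha1 : a 1 = q ∧ w 1 = 1 := by
    have h1 := hrep 1 h1U
    rw [hx1] at h1
    exact unique_rep hK ha (hwpos 1 h1U) one_pos (by rw [h1, one_smul])
  set k : ℝ → ℝ := fun s => ⟪conormal f p, x s⟫ - w s with hk
  have hkd : ∀ s ∈ U, HasDerivAt k (⟪conormal f p, d⟫ - deriv w s) s := by
    intro s hs
    have h1 := (hasDerivAt_const s (conormal f p)).inner ℝ (hxd s)
    have h2 := h1.sub (hdW s hs)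
    rw [inner_zero_left, add_zero] at h2
    exact h2
  have hIU : Icc (0 : ℝ) 1 ⊆ U := fun s hs => hmem s hs
  have hw0 : ⟪conormal f p, d⟫ - deriv w 0 = 0 := by
    have h1 := hfirst 0 0 h0U
    rw [ha0.1, hf.inner_self, inner_conormal_D1] at h1
    linarith
  have hanti : StrictAntiOn (deriv w) (Icc 0 1) := by
    apply strictAntiOn_of_deriv_neg (convex_Icc 0 1)
    · intro s hs
      exact (hddW s (hIU hs)).continuousAt.continuousWithinAt
    · intro s hs
      rw [interior_Icc] at hs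
      exact hsecond s (hIU (Ioo_subset_Icc_self hs))
  have hmono : StrictMonoOn k (Icc 0 1) := by
    apply strictMonoOn_of_deriv_pos (convex_Icc 0 1)
    · intro s hs
      exact (hkd s (hIU hs)).continuousAt.continuousWithinAt
    · intro s hs
      rw [interior_Icc] at hs
      have hs' := Ioo_subset_Icc_self hs
      rw [(hkd s (hIU hs')).deriv]
      have := hanti (show (0 : ℝ) ∈ Icc 0 1 by simp) hs' hs.1
      linarith
  have hfin := hmono (show (0 : ℝ) ∈ Icc 0 1 by simp) (show (1 : ℝ) ∈ Icc 0 1 by simp) one_pos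
  simp only [hk, hx0, hx1, ha0.2, ha1.2, hf.inner_self] at hfin
  linarith

theorem one_le_inner (p q : ℝ × ℝ) : 1 ≤ ⟪conormal f p, f q⟫ := by
  rcases eq_or_ne p q with rfl | h
  · rw [hf.inner_self]
  · exact (one_lt_inner hK hf ha h).le

end

end Pool.Agent.H74.Aff
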