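import Mathlib

set_option autoImplicit false

/-!
# Hyperbolic affine spheres over convex cones in `ℝ³`: definitions
-/

namespace Pool.Agent.H74.Aff

open Set Filter Topology
open scoped ContDiff RealInnerProductSpace

/-- `ℝ³`. -/
abbrev V := EuclideanSpace ℝ (Fin 3)

/-- The cross product of two vectors of `ℝ³`. -/
noncomputable def cross (a b : V) : V :=
  !₂[a 1 * b 2 - a 2 * b 1, a 2 * b 0 - a 0 * b 2, a 0 * b 1 - a 1 * b 0]

/-- The determinant of three vectors of `ℝ³`. -/
noncomputable def det3 (a b c : V) : ℝ := ⟪cross a b, c⟫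

/-- A regular convex cone: a closed convex cone with nonempty interior that contains no line. -/
structure IsRegularCone (K : Set V) : Prop where
  closed : IsClosed K
  convex : Convex ℝ K
  smul_mem : ∀ x ∈ K, ∀ t : ℝ, 0 ≤ t → t • x ∈ K
  interior_nonempty : (interior K).Nonempty
  pointed : ∀ x ∈ K, -x ∈ K → x = 0

/-- `F` is a `2`-dimensional face of `K`: a convex subset of `K` such that `x, y ∈ K` and
`(x + y) / 2 ∈ F` imply `x, y ∈ F`, and whose linear span is `2`-dimensional. -/
structure IsFace2 (K F : Set V) : Prop where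
  subset : F ⊆ K
  convex : Convex ℝ F
  face : ∀ x ∈ K, ∀ y ∈ K, (1 / 2 : ℝ) • (x + y) ∈ F → x ∈ F ∧ y ∈ F
  finrank : Module.finrank ℝ (Submodule.span ℝ F) = 2

/-- Condition (ii): every point of `∂K` is a limit of points lying in `2`-dimensional faces. -/
def FacesDense (K : Set V) : Prop :=
  ∀ x ∈ frontier K, x ∈ closure {y | ∃ F, IsFace2 K F ∧ y ∈ F}

/-- The partial derivative of `f : ℝ² → ℝ³` in the direction `X`. -/
noncomputable def D1 (f : ℝ × ℝ → V) (p : ℝ × ℝ) (X : ℝ × ℝ) : V := fderiv ℝ f p X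

/-- The second derivative of `f : ℝ² → ℝ³`. -/
noncomputable def D2 (f : ℝ × ℝ → V) (p : ℝ × ℝ) (X Y : ℝ × ℝ) : V :=
  fderiv ℝ (fderiv ℝ f) p X Y

/-- The volume `det (f_x, f_y, f)` spanned by the tangent plane and the position vector. -/
noncomputable def vol (f : ℝ × ℝ → V) (p : ℝ × ℝ) : ℝ :=
  det3 (D1 f p (1, 0)) (D1 f p (0, 1)) (f p)

/-- The second fundamental form of `f` with respect to the transversal field `ξ = f` (the position
vector): the coefficient of `f` in `D_X f_* Y = f_* (∇_X Y) + h (X, Y) f`. -/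
noncomputable def blaschke (f : ℝ × ℝ → V) (p : ℝ × ℝ) (X Y : ℝ × ℝ) : ℝ :=
  det3 (D1 f p (1, 0)) (D1 f p (0, 1)) (D2 f p X Y) / vol f p

/-- `f : ℝ² → ℝ³` is a (locally strongly convex) hyperbolic affine sphere with centre `0` and
affine mean curvature `-1`: `f` is smooth, the position vector is transversal to the immersed
surface, the second fundamental form `h` with respect to it is positive definite, and the volume
form `det (f_x, f_y, f)` is the volume form of `h`. These conditions say that the position vector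
`ξ = f` is the affine normal and `h` the affine (Blaschke) metric; the shape operator of `ξ = f` is
`-id`. -/
structure IsHyperbolicAffineSphere (f : ℝ × ℝ → V) : Prop where
  smooth : ContDiff ℝ ∞ f
  transversal : ∀ p, vol f p ≠ 0
  pos : ∀ p X, X ≠ 0 → 0 < blaschke f p X X
  volume : ∀ p, vol f p ^ 2 = blaschke f p (1, 0) (1, 0) * blaschke f p (0, 1) (0, 1) -
    blaschke f p (1, 0) (0, 1) ^ 2

/-- A Riemannian metric `h` on the plane is complete: every `C¹` path `[0, ∞) → ℝ²` that leaves
every compact set has infinite `h`-length. -/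
def IsCompleteMetric (h : ℝ × ℝ → ℝ × ℝ → ℝ × ℝ → ℝ) : Prop :=
  ∀ γ : ℝ → ℝ × ℝ, ContDiffOn ℝ 1 γ (Ici 0) → Tendsto γ atTop (cocompact (ℝ × ℝ)) →
    ∫⁻ t in Ici (0 : ℝ), ENNReal.ofReal (√(h (γ t) (deriv γ t) (deriv γ t))) = ⊤

/-- A Riemannian metric `h` on the plane is conformally equivalent to the complex plane: there is a
smooth diffeomorphism `Φ : ℂ → ℝ²` for which `Φ^* h` is a positive multiple of the Euclidean
metric at every point. -/
def IsConformallyPlane (h : ℝ × ℝ → ℝ × ℝ → ℝ × ℝ → ℝ) : Prop :=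
  ∃ (Φ : ℂ → ℝ × ℝ) (Ψ : ℝ × ℝ → ℂ), ContDiff ℝ ∞ Φ ∧ ContDiff ℝ ∞ Ψ ∧ (∀ z, Ψ (Φ z) = z) ∧
    (∀ p, Φ (Ψ p) = p) ∧ ∀ z : ℂ, ∃ ρ : ℝ, 0 < ρ ∧
      ∀ X Y : ℂ, h (Φ z) (fderiv ℝ Φ z X) (fderiv ℝ Φ z Y) = ρ * (X.re * Y.re + X.im * Y.im)

/-- The immersed surface `f : ℝ² → ℝ³` is asymptotic to the boundary of the cone `K`: it lies in
the interior of `K`, every ray of the interior of `K` meets it exactly once, it is properly
immersed, and its distance to `∂K` tends to `0` at infinity. -/
structure IsAsymptoticTo (f : ℝ × ℝ → V) (K : Set V) : Prop where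
  mem : ∀ p, f p ∈ interior K
  ray : ∀ x ∈ interior K, ∃! p, ∃ t : ℝ, 0 < t ∧ f p = t • x
  proper : Tendsto f (cocompact (ℝ × ℝ)) (cocompact V)
  dist : Tendsto (fun p => Metric.infDist (f p) (frontier K)) (cocompact (ℝ × ℝ)) (𝓝 0)

/-- Condition (i): each complete hyperbolic affine sphere asymptotic to `∂K` is conformally
equivalent to `ℂ` (with respect to its affine metric). -/
def TypePlane (K : Set V) : Prop :=
  ∀ f : ℝ × ℝ → V, IsHyperbolicAffineSphere f → IsCompleteMetric (blaschke f) →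
    IsAsymptoticTo f K → IsConformallyPlane (blaschke f)

end Pool.Agent.H74.Aff
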