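import Pool.Agent.H74.AffConvex

set_option autoImplicit false

namespace Pool.Agent.H74.Aff

open Set Filter Topology
open scoped ContDiff RealInnerProductSpace

section
variable {f : ℝ × ℝ → V} {K : Set V} (hK : IsRegularCone K) (hf : IsHyperbolicAffineSphere f)
  (ha : IsAsymptoticTo f K)
include hK ha hf

theorem one_le_inner_ray (p : ℝ × ℝ) {x : V} (hx : x ∈ interior K) :
    ∃ q, ∃ t : ℝ, 0 < t ∧ f q = t • x ∧ 1 / t ≤ ⟪conormal f p, x⟫ := by
  obtain ⟨q, ⟨t, ht, hq⟩, _⟩ := ha.ray x hx
  refine ⟨q, t, ht, hq, ?_⟩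
  have := one_le_inner hK hf ha p q
  rw [hq, inner_smul_right] at this
  rw [div_le_iff₀ ht]
  linarith

theorem conormal_pos (p : ℝ × ℝ) {x : V} (hx : x ∈ interior K) : 0 < ⟪conormal f p, x⟫ := by
  obtain ⟨q, t, ht, _, h⟩ := one_le_inner_ray hK hf ha p hx
  exact lt_of_lt_of_le (by positivity) h

theorem conormal_mem (p : ℝ × ℝ) : conormal f p ∈ dualCone K := by
  intro x hx
  obtain ⟨e, he⟩ := hK.interior_nonempty
  by_contra hneg
  push Not at hneg
  have he' := conormal_pos hK hf ha p he
  set c := -⟪conormal f p, x⟫ / ⟪conormal f p, e⟫ with hc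
  have hc0 : 0 < c := div_pos (by linarith) he'
  have h1 := hK.interior_add (hK.interior_smul he hc0) hx
  have h2 := conormal_pos hK hf ha p h1
  rw [inner_add_right, inner_smul_right, hc, div_mul_cancel₀ _ he'.ne'] at h2
  linarith

theorem conormal_pos' (p : ℝ × ℝ) {x : V} (hx : x ∈ K) (hx0 : x ≠ 0) :
    0 < ⟪conormal f p, x⟫ := by
  by_contra hneg
  have h0 : ⟪conormal f p, x⟫ = 0 := le_antisymm (not_lt.1 hneg) (conormal_mem hK hf ha p x hx)
  -- the ray through `f p + x`
  have hy := hK.interior_add (ha.mem p) hx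
  obtain ⟨q, ⟨t, ht, hq⟩, _⟩ := ha.ray _ hy
  have h1 := one_le_inner hK hf ha p q
  rw [hq, inner_smul_right, inner_add_right, hf.inner_self, h0] at h1
  have h2 := one_le_inner hK hf ha q p
  have h3 := hf.inner_self q
  have h4 := conormal_mem hK hf ha q x hx
  rw [hq, inner_smul_right, inner_add_right] at h3
  have h5 : t ≤ 1 := by
    by_contra h6
    push Not at h6
    nlinarith
  have h6 : t = 1 := by linarith
  have h7 : q = p := by
    by_contra hne
    have h8 := one_lt_inner hK hf ha (p := p) (q := q) (Ne.symm hne)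
    rw [hq, inner_smul_right, inner_add_right, hf.inner_self, h0, h6] at h8
    linarith
  rw [h7, h6, one_smul] at hq
  apply hx0
  have : f p = f p + x := hq
  simpa using this.symm

theorem conormal_interior (p : ℝ × ℝ) : conormal f p ∈ interior (dualCone K) :=
  hK.mem_interior_dual fun _ hx hx0 => conormal_pos' hK hf ha p hx hx0

theorem conormal_ray {ν : V} (hν : ν ∈ interior (dualCone K)) :
    ∃! p, ∃ t : ℝ, 0 < t ∧ conormal f p = t • ν := by
  obtain ⟨c, hc, hb⟩ := hK.exists_bound (ν := ν) fun x hx hx0 =>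
    IsRegularCone.pos_of_mem_interior_dual hν hx hx0
  set l : ℝ × ℝ → ℝ := fun p => ⟪ν, f p⟫ with hl
  have hlc : Continuous l := continuous_const.inner hf.smooth.continuous
  have hlt : Tendsto l (cocompact (ℝ × ℝ)) atTop := by
    have h1 : Tendsto (fun p => ‖f p‖) (cocompact (ℝ × ℝ)) atTop :=
      tendsto_norm_cocompact_atTop.comp ha.proper
    have h2 : Tendsto (fun p => c * ‖f p‖) (cocompact (ℝ × ℝ)) atTop := h1.const_mul_atTop hc
    exact tendsto_atTop_mono (fun p => hb _ (interior_subset (ha.mem p))) h2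
  obtain ⟨p, hp⟩ := hlc.exists_forall_le hlt
  have hpos : 0 < l p := IsRegularCone.pos_of_mem_interior_dual hν (interior_subset (ha.mem p))
    (hK.ne_zero_of_interior (ha.mem p))
  have hcrit : ∀ X, ⟪ν, D1 f p X⟫ = 0 := by
    intro X
    have h1 : IsLocalMin l p := Filter.Eventually.of_forall hp
    have h2 := h1.fderiv_eq_zero
    have h3 := fderiv_inner_apply (𝕜 := ℝ) (f := fun _ : ℝ × ℝ => ν) (g := f) (x := p)
        (differentiableAt_const ν) (hf.smooth.differentiable (by simp) p) X
    have h4 : fderiv ℝ l p X = ⟪ν, D1 f p X⟫ := by simpa [D1, hl] using h3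
    rw [← h4, h2]; rfl
  -- `ν = l p • conormal f p`
  have heq : ν = l p • conormal f p := by
    -- the difference is orthogonal to the basis
    set δ := ν - l p • conormal f p with hδ
    have k1 : ∀ X, ⟪δ, D1 f p X⟫ = 0 := by
      intro X
      rw [hδ, inner_sub_left, hcrit, inner_smul_left, inner_conormal_D1]; simp
    have k2 : ⟪δ, f p⟫ = 0 := by
      rw [hδ, inner_sub_left, inner_smul_left, hf.inner_self]; simp [hl]
    have k3 : det3 (D1 f p (1, 0)) (D1 f p (0, 1)) (f p) *
        det3 (D1 f p (1, 0)) (D1 f p (0, 1)) (f p) ≠ 0 :=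
      mul_ne_zero (hf.transversal p) (hf.transversal p)
    have k4 : δ = 0 := by
      have hv := hf.transversal p
      have e1 := k1 (1, 0)
      have e2 := k1 (0, 1)
      unfold vol det3 at hv
      rw [inner3] at e1 e2 k2 hv
      simp only [cross_zero', cross_one', cross_two'] at hv
      generalize D1 f p (1, 0) = a at *
      generalize D1 f p (0, 1) = b at *
      generalize f p = z at *
      have q0 : δ 0 = 0 := by
        have : δ 0 * ((a 1 * b 2 - a 2 * b 1) * z 0 + (a 2 * b 0 - a 0 * b 2) * z 1 +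
          (a 0 * b 1 - a 1 * b 0) * z 2) = 0 := by
          linear_combination (b 1 * z 2 - b 2 * z 1) * e1 + (a 2 * z 1 - a 1 * z 2) * e2 +
            (a 1 * b 2 - a 2 * b 1) * k2
        exact (mul_eq_zero.1 this).resolve_right hv
      have q1 : δ 1 = 0 := by
        have : δ 1 * ((a 1 * b 2 - a 2 * b 1) * z 0 + (a 2 * b 0 - a 0 * b 2) * z 1 +
          (a 0 * b 1 - a 1 * b 0) * z 2) = 0 := by
          linear_combination (b 2 * z 0 - b 0 * z 2) * e1 + (a 0 * z 2 - a 2 * z 0) * e2 +
            (a 2 * b 0 - a 0 * b 2) * k2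
        exact (mul_eq_zero.1 this).resolve_right hv
      have q2 : δ 2 = 0 := by
        have : δ 2 * ((a 1 * b 2 - a 2 * b 1) * z 0 + (a 2 * b 0 - a 0 * b 2) * z 1 +
          (a 0 * b 1 - a 1 * b 0) * z 2) = 0 := by
          linear_combination (b 0 * z 1 - b 1 * z 0) * e1 + (a 1 * z 0 - a 0 * z 1) * e2 +
            (a 0 * b 1 - a 1 * b 0) * k2
        exact (mul_eq_zero.1 this).resolve_right hv
      ext i
      fin_cases i
      · exact q0
      · exact q1
      · exact q2
    rw [hδ, sub_eq_zero] at k4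
    exact k4
  refine ⟨p, ⟨(l p)⁻¹, by positivity, ?_⟩, ?_⟩
  · have h0 : (l p)⁻¹ • ν = (l p)⁻¹ • (l p • conormal f p) := congrArg _ heq
    rw [h0, smul_smul, inv_mul_cancel₀ hpos.ne', one_smul]
  · rintro r ⟨t, ht, hr⟩
    by_contra hne
    have h1 := one_lt_inner hK hf ha (p := r) (q := p) hne
    have h2 := one_lt_inner hK hf ha (p := p) (q := r) (Ne.symm hne)
    have h3 := hf.inner_self r
    have h4 := hf.inner_self p
    have h5 : conormal f r = (t * l p) • conormal f p := by
      rw [hr, mul_smul, ← heq]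
    rw [h5, inner_smul_left] at h1 h3
    simp only [conj_trivial] at h1 h3
    rw [h4] at h1
    nlinarith

theorem conormal_norm_tendsto :
    Tendsto (fun p => ‖conormal f p‖) (cocompact (ℝ × ℝ)) atTop := by
  by_contra hcon
  rw [tendsto_atTop] at hcon
  push Not at hcon
  obtain ⟨b, hb⟩ := hcon
  have hb' : ∃ᶠ p in cocompact (ℝ × ℝ), ‖conormal f p‖ < b := by
    simpa [Filter.not_eventually] using hb
  have hcg : (cocompact (ℝ × ℝ)).IsCountablyGenerated := by
    rw [← Metric.cobounded_eq_cocompact, ← comap_norm_atTop]; infer_instance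
  obtain ⟨ns, hns, hnsb⟩ := Filter.exists_seq_forall_of_frequently hb'
  obtain ⟨μ, -, φ, hφ, hμ⟩ := (isCompact_closedBall (0 : V) b).tendsto_subseq
    (x := fun n => conormal f (ns n)) (fun n => by
      rw [mem_closedBall_zero_iff]; exact (hnsb n).le)
  have hns' : Tendsto (ns ∘ φ) atTop (cocompact (ℝ × ℝ)) := hns.comp hφ.tendsto_atTop
  have hμK : μ ∈ dualCone K := (isClosed_dualCone K).mem_of_tendsto hμ
    (Eventually.of_forall fun n => conormal_mem hK hf ha _)
  have hA : ∀ q, 1 ≤ ⟪μ, f q⟫ := by
    intro q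
    refine ge_of_tendsto (hμ.inner tendsto_const_nhds) (Eventually.of_forall fun n => ?_)
    exact one_le_inner hK hf ha _ q
  have hB : ∃ X ∈ K, X ≠ 0 ∧ ⟪μ, X⟫ ≤ 0 := by
    by_contra hB
    push Not at hB
    obtain ⟨c, hc, hbd⟩ := hK.exists_bound hB
    have h1 : ∀ᶠ n in atTop, ‖conormal f (ns (φ n)) - μ‖ < c / 2 := by
      have := (tendsto_iff_norm_sub_tendsto_zero.1 hμ).eventually (gt_mem_nhds (half_pos hc))
      exact this
    have h2 : Tendsto (fun n => c / 2 * ‖f (ns (φ n))‖) atTop atTop :=
      ((tendsto_norm_cocompact_atTop.comp ha.proper).comp hns').const_mul_atTop (half_pos hc)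
    obtain ⟨n, hn1, hn2⟩ := (h1.and (h2.eventually_gt_atTop 1)).exists
    have h3 := hbd (f (ns (φ n))) (interior_subset (ha.mem _))
    have h4 := hf.inner_self (ns (φ n))
    have h5 : |⟪conormal f (ns (φ n)) - μ, f (ns (φ n))⟫| ≤
      ‖conormal f (ns (φ n)) - μ‖ * ‖f (ns (φ n))‖ := abs_real_inner_le_norm _ _
    have h6 : ⟪conormal f (ns (φ n)), f (ns (φ n))⟫ = ⟪μ, f (ns (φ n))⟫ +
      ⟪conormal f (ns (φ n)) - μ, f (ns (φ n))⟫ := by rw [inner_sub_left]; ring
    have h7 : ‖conormal f (ns (φ n)) - μ‖ * ‖f (ns (φ n))‖ ≤ c / 2 * ‖f (ns (φ n))‖ := by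
      gcongr
    have h8 := (abs_le.1 h5).1
    linarith
  obtain ⟨X, hXK, hX0, hX⟩ := hB
  have hX' : ⟪μ, X⟫ = 0 := le_antisymm hX (hμK X hXK)
  obtain ⟨e, he⟩ := hK.interior_nonempty
  have hmem : ∀ n : ℕ, e + (n : ℝ) • X ∈ interior K := fun n =>
    hK.interior_add he (hK.smul_mem X hXK n (Nat.cast_nonneg n))
  choose q hq _ using fun n => ha.ray _ (hmem n)
  choose r hr hqr using hq
  have h1 : ∀ n, 1 ≤ r n * ⟪μ, e⟫ := by
    intro n
    have := hA (q n)
    rw [hqr, inner_smul_right, inner_add_right, inner_smul_right, hX', mul_zero, add_zero] at this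
    exact this
  have hμe : 0 < ⟪μ, e⟫ := by
    have := h1 0
    by_contra h
    push Not at h
    nlinarith [hr 0]
  set r0 := 1 / ⟪μ, e⟫ with hr0
  have hr0pos : 0 < r0 := by positivity
  have h2 : ∀ n, r0 ≤ r n := by
    intro n
    rw [hr0, div_le_iff₀ hμe]
    exact h1 n
  -- the norms tend to infinity
  have h3 : Tendsto (fun n => ‖f (q n)‖) atTop atTop := by
    have h4 : Tendsto (fun n : ℕ => r0 * ((n : ℝ) * ‖X‖ - ‖e‖)) atTop atTop := by
      apply Tendsto.const_mul_atTop hr0pos
      apply tendsto_atTop_add_const_right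
      exact tendsto_natCast_atTop_atTop.atTop_mul_const (norm_pos_iff.2 hX0)
    refine tendsto_atTop_mono (fun n => ?_) h4
    rw [hqr, norm_smul, Real.norm_of_nonneg (hr n).le]
    have h5 : (n : ℝ) * ‖X‖ - ‖e‖ ≤ ‖e + (n : ℝ) • X‖ := by
      have := norm_sub_le (e + (n : ℝ) • X) e
      rw [add_sub_cancel_left, norm_smul, Real.norm_of_nonneg (Nat.cast_nonneg n)] at this
      linarith
    have h6 : 0 ≤ ‖e + (n : ℝ) • X‖ := norm_nonneg _
    have h7 := h2 n
    nlinarith
  have h4 : Tendsto q atTop (cocompact (ℝ × ℝ)) := by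
    rw [(hasBasis_cocompact).tendsto_right_iff]
    intro C hC
    obtain ⟨B, hB⟩ := (hC.image hf.smooth.continuous).isBounded.exists_norm_le
    filter_upwards [h3.eventually_gt_atTop B] with n hn hqn
    exact absurd (hB _ (mem_image_of_mem f hqn)) (not_le.2 hn)
  -- distance to the boundary
  rw [mem_interior_iff_mem_nhds, Metric.mem_nhds_iff] at he
  obtain ⟨ε, hε, hball⟩ := he
  have h5 : ∀ n, r0 * ε ≤ Metric.infDist (f (q n)) (frontier K) := by
    intro n
    have hne : (frontier K).Nonempty := by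
      refine ⟨0, subset_closure hK.zero_mem, hK.zero_notMem_interior⟩
    rw [Metric.le_infDist hne]
    intro y hy
    by_contra hlt
    push Not at hlt
    apply hy.2
    rw [mem_interior_iff_mem_nhds]
    have hr' := h2 n
    have hballn : Metric.ball (f (q n)) (r n * ε) ⊆ K := by
      intro z hz
      rw [mem_ball_iff_norm] at hz
      have e1 : z = r n • ((e + (r n)⁻¹ • (z - f (q n))) + (n : ℝ) • X) := by
        rw [smul_add, smul_add, smul_smul, mul_inv_cancel₀ (hr n).ne', one_smul]
        have := hqr n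
        rw [smul_add] at this
        rw [this]
        abel
      rw [e1]
      apply hK.smul_mem _ _ _ (hr n).le
      apply hK.add_mem _ (hK.smul_mem X hXK n (Nat.cast_nonneg n))
      apply hball
      rw [mem_ball_iff_norm, add_sub_cancel_left, norm_smul, norm_inv,
        Real.norm_of_nonneg (hr n).le, inv_mul_lt_iff₀ (hr n)]
      exact hz
    refine Filter.mem_of_superset (Metric.isOpen_ball.mem_nhds ?_) hballn
    rw [Metric.mem_ball, dist_comm]
    calc dist (f (q n)) y < r0 * ε := hlt
      _ ≤ r n * ε := by gcongr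
  have h6 := (ha.dist.comp h4).eventually (gt_mem_nhds (show 0 < r0 * ε by positivity))
  obtain ⟨n, hn⟩ := h6.exists
  exact absurd (h5 n) (not_le.2 hn)

theorem conormal_infDist (p : ℝ × ℝ) :
    Metric.infDist (conormal f p) (frontier (dualCone K)) ≤ ‖f p‖⁻¹ := by
  have hfp := hK.ne_zero_of_interior (ha.mem p)
  have hn : 0 < ‖f p‖ := norm_pos_iff.2 hfp
  set y := conormal f p - (‖f p‖ ^ 2)⁻¹ • f p with hy
  have hyn : y ∉ interior (dualCone K) := by
    intro h
    have := IsRegularCone.pos_of_mem_interior_dual h (interior_subset (ha.mem p)) hfp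
    rw [hy, inner_sub_left, hf.inner_self, inner_smul_left, real_inner_self_eq_norm_sq] at this
    simp only [map_inv₀, map_pow, conj_trivial] at this
    rw [inv_mul_cancel₀ (by positivity)] at this
    linarith
  have hex : ∃ z ∈ segment ℝ (conormal f p) y, z ∈ frontier (interior (dualCone K)) := by
    by_contra hno
    push Not at hno
    have hpre := (convex_segment (conormal f p) y).isPreconnected (interior (dualCone K))
      (closure (interior (dualCone K)))ᶜ isOpen_interior isClosed_closure.isOpen_compl (by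
        intro z hz
        by_cases hz1 : z ∈ interior (dualCone K)
        · exact Or.inl hz1
        · right
          intro hz2
          exact hno z hz ⟨hz2, by rwa [interior_interior]⟩)
      ⟨_, left_mem_segment ℝ _ _, conormal_interior hK hf ha p⟩
      ⟨y, right_mem_segment ℝ _ _, fun h => hno y (right_mem_segment ℝ _ _)
        ⟨h, by rwa [interior_interior]⟩⟩
    obtain ⟨z, _, hz1, hz2⟩ := hpre
    exact hz2 (subset_closure hz1)
  obtain ⟨z, hz1, hz2⟩ := hex
  have hz3 : z ∈ frontier (dualCone K) := frontier_interior_subset hz2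
  have hz4 := segment_subset_closedBall_left (conormal f p) y hz1
  refine (Metric.infDist_le_dist_of_mem hz3).trans ?_
  rw [Metric.mem_closedBall, dist_comm] at hz4
  refine hz4.trans ?_
  rw [dist_eq_norm, hy, sub_sub_cancel, norm_smul, norm_inv, norm_pow, norm_norm]
  apply le_of_eq
  field_simp

/-- the conormal surface is asymptotic to the boundary of the dual cone -/
theorem conormal_asymptotic : IsAsymptoticTo (conormal f) (dualCone K) where
  mem := conormal_interior hK hf ha
  ray _ hx := conormal_ray hK hf ha hx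
  proper := by
    rw [← Metric.cobounded_eq_cocompact (α := V), ← tendsto_norm_atTop_iff_cobounded]
    exact conormal_norm_tendsto hK hf ha
  dist := by
    refine squeeze_zero (fun _ => Metric.infDist_nonneg) (conormal_infDist hK hf ha) ?_
    exact tendsto_inv_atTop_zero.comp (tendsto_norm_cocompact_atTop.comp ha.proper)

end

/-- **Duality.** If every complete hyperbolic affine sphere asymptotic to the boundary of the dual
cone is conformally equivalent to `ℂ`, the same holds for the cone itself. -/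
theorem TypePlane.of_dual {K : Set V} (hK : IsRegularCone K) (h : TypePlane (dualCone K)) :
    TypePlane K := by
  intro f hf hc ha
  have h1 := h (conormal f) hf.dual (by rw [hf.blaschke_conormal_eq]; exact hc)
    (conormal_asymptotic hK hf ha)
  rwa [hf.blaschke_conormal_eq] at h1

end Pool.Agent.H74.Aff
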