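import Pool.Agent.H74.AffDual

set_option autoImplicit false

namespace Pool.Agent.H74.Aff

open Set Filter Topology
open scoped ContDiff RealInnerProductSpace

/-- a dense sequence of real numbers -/
noncomputable def rr (n : ℕ) : ℝ := TopologicalSpace.denseSeq ℝ n

/-- the weights -/
noncomputable def cc (n : ℕ) : ℝ := (1 / 2) ^ n / (1 + |rr n|)

theorem cc_pos (n : ℕ) : 0 < cc n := by unfold cc; positivity

theorem cc_bound (n : ℕ) (s a b : ℝ) (hs : |s| ≤ 1) :
    |cc n * s * (a - rr n * b)| ≤ (1 / 2) ^ n * (|a| + |b|) := by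
  have h1 : |a - rr n * b| ≤ (1 + |rr n|) * (|a| + |b|) := by
    have h2 : |a - rr n * b| ≤ |a| + |rr n| * |b| := by
      rw [← abs_mul]; exact abs_sub _ _
    nlinarith [abs_nonneg a, abs_nonneg b, abs_nonneg (rr n), mul_nonneg (abs_nonneg (rr n)) (abs_nonneg a)]
  rw [abs_mul, abs_mul, abs_of_pos (cc_pos n)]
  have h3 : 0 < 1 + |rr n| := by positivity
  calc cc n * |s| * |a - rr n * b| ≤ cc n * 1 * ((1 + |rr n|) * (|a| + |b|)) := by
        have := (cc_pos n).le
        gcongr
    _ = (1 / 2) ^ n * (|a| + |b|) := by unfold cc; field_simp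

theorem summable_cc {σ : ℕ → ℝ} (hσ : ∀ n, |σ n| ≤ 1) (a b : ℝ) :
    Summable fun n => cc n * σ n * (a - rr n * b) := by
  apply Summable.of_norm_bounded (g := fun n => (1 / 2 : ℝ) ^ n * (|a| + |b|))
  · exact (summable_geometric_of_lt_one (by norm_num) (by norm_num)).mul_right _
  · intro n
    exact cc_bound n _ a b (hσ n)

theorem summable_abs (a b : ℝ) : Summable fun n => cc n * |a - rr n * b| := by
  have h := (summable_cc (σ := fun _ => 1) (by simp) a b).abs
  refine h.congr fun n => ?_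
  rw [abs_mul, abs_mul, abs_of_pos (cc_pos n)]
  simp

/-- the norm -/
noncomputable def NN (a b : ℝ) : ℝ := |a| + |b| + ∑' n, cc n * |a - rr n * b|

theorem NN_ge (a b : ℝ) : |a| + |b| ≤ NN a b := by
  have : 0 ≤ ∑' n, cc n * |a - rr n * b| :=
    tsum_nonneg fun n => mul_nonneg (cc_pos n).le (abs_nonneg _)
  unfold NN; linarith

theorem NN_le (a b : ℝ) : NN a b ≤ 3 * (|a| + |b|) := by
  have h : ∑' n, cc n * |a - rr n * b| ≤ ∑' n, (1 / 2 : ℝ) ^ n * (|a| + |b|) := by
    refine (summable_abs a b).tsum_le_tsum (fun n => ?_)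
      ((summable_geometric_of_lt_one (by norm_num) (by norm_num)).mul_right _)
    have := cc_bound n 1 a b (by simp)
    rw [abs_mul, abs_mul, abs_of_pos (cc_pos n)] at this
    simpa using this
  rw [tsum_mul_right, tsum_geometric_of_lt_one (by norm_num) (by norm_num)] at h
  unfold NN
  norm_num at h ⊢
  linarith

theorem NN_add (a b a' b' : ℝ) : NN (a + a') (b + b') ≤ NN a b + NN a' b' := by
  have h : ∑' n, cc n * |(a + a') - rr n * (b + b')| ≤
      ∑' n, (cc n * |a - rr n * b| + cc n * |a' - rr n * b'|) := by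
    refine (summable_abs _ _).tsum_le_tsum (fun n => ?_)
      ((summable_abs a b).add (summable_abs a' b'))
    rw [← mul_add]
    refine mul_le_mul_of_nonneg_left ?_ (cc_pos n).le
    have : (a + a') - rr n * (b + b') = (a - rr n * b) + (a' - rr n * b') := by ring
    rw [this]; exact abs_add_le _ _
  rw [(summable_abs a b).tsum_add (summable_abs a' b')] at h
  have h1 := abs_add_le a a'
  have h2 := abs_add_le b b'
  unfold NN; linarith

theorem NN_smul (l a b : ℝ) : NN (l * a) (l * b) = |l| * NN a b := by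
  unfold NN
  have : ∀ n, cc n * |l * a - rr n * (l * b)| = |l| * (cc n * |a - rr n * b|) := by
    intro n
    rw [show l * a - rr n * (l * b) = l * (a - rr n * b) by ring, abs_mul]; ring
  simp_rw [this, tsum_mul_left, abs_mul]
  ring

theorem NN_neg (a b : ℝ) : NN (-a) (-b) = NN a b := by
  have := NN_smul (-1) a b
  simpa using this

/-- the first cone -/
def K1 : Set V := {x | NN (x 0) (x 1) ≤ x 2}

/-- the functionals cutting out `K1` -/
noncomputable def mu (s t : ℝ) (σ : ℕ → ℝ) : V :=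
  !₂[-(s + ∑' n, cc n * σ n * (1 - rr n * 0)), -(t + ∑' n, cc n * σ n * (0 - rr n * 1)), 1]

theorem inner_mu {s t : ℝ} {σ : ℕ → ℝ} (hσ : ∀ n, |σ n| ≤ 1) (x : V) :
    ⟪mu s t σ, x⟫ = x 2 - (s * x 0 + t * x 1 + ∑' n, cc n * σ n * (x 0 - rr n * x 1)) := by
  have h1 : ∑' n, cc n * σ n * (x 0 - rr n * x 1) =
      (∑' n, cc n * σ n * (1 - rr n * 0)) * x 0 + (∑' n, cc n * σ n * (0 - rr n * 1)) * x 1 := by
    rw [← tsum_mul_right, ← tsum_mul_right, ← Summable.tsum_add]
    · congr 1; funext n; ring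
    · exact (summable_cc hσ 1 0).mul_right _
    · exact (summable_cc hσ 0 1).mul_right _
  rw [inner3, h1]
  simp only [mu]
  simp
  ring

theorem sign_abs (x : ℝ) : |((SignType.sign x : SignType) : ℝ)| ≤ 1 := by
  rcases lt_trichotomy x 0 with h | h | h <;> simp [h]

theorem mem_K1_of_mu {x : V} (h : ∀ s t : ℝ, ∀ σ : ℕ → ℝ, |s| ≤ 1 → |t| ≤ 1 → (∀ n, |σ n| ≤ 1) →
    0 ≤ ⟪mu s t σ, x⟫) : x ∈ K1 := by
  have h1 := h (SignType.sign (x 0)) (SignType.sign (x 1))
    (fun n => SignType.sign (x 0 - rr n * x 1)) (sign_abs _) (sign_abs _) (fun n => sign_abs _)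
  rw [inner_mu (fun n => sign_abs _)] at h1
  have h2 : ∀ n, cc n * ((SignType.sign (x 0 - rr n * x 1) : SignType) : ℝ) *
      (x 0 - rr n * x 1) = cc n * |x 0 - rr n * x 1| := by
    intro n
    rw [mul_assoc, sign_mul_self]
  simp_rw [h2, sign_mul_self] at h1
  change NN _ _ ≤ _
  unfold NN
  linarith

theorem mu_nonneg {s t : ℝ} {σ : ℕ → ℝ} (hs : |s| ≤ 1) (ht : |t| ≤ 1) (hσ : ∀ n, |σ n| ≤ 1)
    {x : V} (hx : x ∈ K1) : 0 ≤ ⟪mu s t σ, x⟫ := by
  rw [inner_mu hσ]
  have h1 : ∑' n, cc n * σ n * (x 0 - rr n * x 1) ≤ ∑' n, cc n * |x 0 - rr n * x 1| := by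
    refine (summable_cc hσ _ _).tsum_le_tsum (fun n => ?_) (summable_abs _ _)
    rw [mul_assoc]
    refine mul_le_mul_of_nonneg_left ?_ (cc_pos n).le
    calc σ n * (x 0 - rr n * x 1) ≤ |σ n * (x 0 - rr n * x 1)| := le_abs_self _
      _ = |σ n| * |x 0 - rr n * x 1| := abs_mul _ _
      _ ≤ 1 * |x 0 - rr n * x 1| := by gcongr; exact hσ n
      _ = _ := one_mul _
  have h2 : s * x 0 ≤ |x 0| := by
    calc s * x 0 ≤ |s * x 0| := le_abs_self _
      _ = |s| * |x 0| := abs_mul _ _
      _ ≤ 1 * |x 0| := by gcongr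
      _ = _ := one_mul _
  have h3 : t * x 1 ≤ |x 1| := by
    calc t * x 1 ≤ |t * x 1| := le_abs_self _
      _ = |t| * |x 1| := abs_mul _ _
      _ ≤ 1 * |x 1| := by gcongr
      _ = _ := one_mul _
  have hx' : NN (x 0) (x 1) ≤ x 2 := hx
  unfold NN at hx'
  linarith

theorem mu_mem {s t : ℝ} {σ : ℕ → ℝ} (hs : |s| ≤ 1) (ht : |t| ≤ 1) (hσ : ∀ n, |σ n| ≤ 1) :
    mu s t σ ∈ dualCone K1 := fun _ hx => mu_nonneg hs ht hσ hx

theorem K1_eq : K1 = dualCone {μ | ∃ s t : ℝ, ∃ σ : ℕ → ℝ, |s| ≤ 1 ∧ |t| ≤ 1 ∧ (∀ n, |σ n| ≤ 1) ∧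
    μ = mu s t σ} := by
  ext x
  constructor
  · rintro hx μ ⟨s, t, σ, hs, ht, hσ, rfl⟩
    rw [real_inner_comm]
    exact mu_nonneg hs ht hσ hx
  · intro h
    refine mem_K1_of_mu fun s t σ hs ht hσ => ?_
    rw [real_inner_comm]
    exact h _ ⟨s, t, σ, hs, ht, hσ, rfl⟩

theorem mem_interior_K1 {x : V} (h : NN (x 0) (x 1) < x 2) : x ∈ interior K1 := by
  rw [mem_interior]
  refine ⟨{y | NN (x 0) (x 1) + 3 * (|y 0 - x 0| + |y 1 - x 1|) < y 2}, ?_, ?_, ?_⟩
  · intro y hy
    have h1 := NN_add (x 0) (x 1) (y 0 - x 0) (y 1 - x 1)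
    have h2 := NN_le (y 0 - x 0) (y 1 - x 1)
    rw [add_sub_cancel, add_sub_cancel] at h1
    have hy' : NN (x 0) (x 1) + 3 * (|y 0 - x 0| + |y 1 - x 1|) < y 2 := hy
    change NN (y 0) (y 1) ≤ y 2
    linarith
  · exact isOpen_lt (by fun_prop) (by fun_prop)
  · simpa using h

theorem K1_regular : IsRegularCone K1 where
  closed := by rw [K1_eq]; exact isClosed_dualCone _
  convex := by rw [K1_eq]; exact convex_dualCone _
  smul_mem x hx t ht := by
    rw [K1_eq] at hx ⊢
    exact smul_mem_dualCone hx ht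
  interior_nonempty := ⟨!₂[0, 0, 1], mem_interior_K1 (by simp [NN])⟩
  pointed x hx hx' := by
    have h1 : NN (x 0) (x 1) ≤ x 2 := hx
    have h2 : NN (-(x 0)) (-(x 1)) ≤ -(x 2) := hx'
    rw [NN_neg] at h2
    have h3 := NN_ge (x 0) (x 1)
    have h4 := abs_nonneg (x 0)
    have h5 := abs_nonneg (x 1)
    have e0 : x 0 = 0 := abs_eq_zero.1 (by linarith)
    have e1 : x 1 = 0 := abs_eq_zero.1 (by linarith)
    have e2 : x 2 = 0 := by linarith
    ext i
    fin_cases i
    · exact e0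
    · exact e1
    · exact e2

theorem K1_pos {x : V} (hx : x ∈ K1) (hx0 : x ≠ 0) : 0 < x 2 := by
  have h1 : NN (x 0) (x 1) ≤ x 2 := hx
  have h3 := NN_ge (x 0) (x 1)
  have h4 := abs_nonneg (x 0)
  have h5 := abs_nonneg (x 1)
  by_contra hneg
  push Not at hneg
  have e0 : x 0 = 0 := abs_eq_zero.1 (by linarith)
  have e1 : x 1 = 0 := abs_eq_zero.1 (by linarith)
  have e2 : x 2 = 0 := by linarith
  apply hx0
  ext i
  fin_cases i
  · exact e0
  · exact e1
  · exact e2

theorem K2_regular : IsRegularCone (dualCone K1) where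
  closed := isClosed_dualCone _
  convex := convex_dualCone _
  smul_mem _ hx _ ht := smul_mem_dualCone hx ht
  interior_nonempty := ⟨!₂[0, 0, 1], K1_regular.mem_interior_dual fun x hx hx0 => by
    rw [inner3]; simpa using K1_pos hx hx0⟩
  pointed ν hν hν' := by
    obtain ⟨e, he⟩ := K1_regular.interior_nonempty
    have h0 : ∀ x ∈ K1, ⟪ν, x⟫ = 0 := by
      intro x hx
      have h1 := hν x hx
      have h2 := hν' x hx
      rw [inner_neg_left] at h2
      linarith
    by_contra hne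
    have hn : 0 < ‖ν‖ := norm_pos_iff.2 hne
    rw [mem_interior_iff_mem_nhds, Metric.mem_nhds_iff] at he
    obtain ⟨ε, hε, hb⟩ := he
    have h1 : e + (ε / 2 / ‖ν‖) • ν ∈ K1 := by
      apply hb
      rw [mem_ball_iff_norm, add_sub_cancel_left, norm_smul, Real.norm_of_nonneg (by positivity)]
      have : ε / 2 / ‖ν‖ * ‖ν‖ = ε / 2 := by field_simp
      rw [this]; linarith
    have h2 := h0 _ h1
    rw [inner_add_right, h0 e (hb (Metric.mem_ball_self hε)), inner_smul_right,
      real_inner_self_eq_norm_sq] at h2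
    have h3 : 0 < ε / 2 / ‖ν‖ * ‖ν‖ ^ 2 := by positivity
    linarith

/-! ### no two-dimensional faces of `K1` -/

theorem finrank_V : Module.finrank ℝ V = 3 := by simp

theorem strict_aux {x0 x1 y0 y1 : ℝ} (h : NN (x0 + y0) (x1 + y1) = NN x0 x1 + NN y0 y1) :
    0 ≤ x0 * y0 ∧ 0 ≤ x1 * y1 ∧ x0 * y1 = x1 * y0 := by
  have hS : ∑' n, cc n * |(x0 + y0) - rr n * (x1 + y1)| ≤
      ∑' n, (cc n * |x0 - rr n * x1| + cc n * |y0 - rr n * y1|) := by
    refine (summable_abs _ _).tsum_le_tsum (fun n => ?_)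
      ((summable_abs x0 x1).add (summable_abs y0 y1))
    rw [← mul_add]
    refine mul_le_mul_of_nonneg_left ?_ (cc_pos n).le
    have : (x0 + y0) - rr n * (x1 + y1) = (x0 - rr n * x1) + (y0 - rr n * y1) := by ring
    rw [this]; exact abs_add_le _ _
  have hS' := hS
  rw [(summable_abs x0 x1).tsum_add (summable_abs y0 y1)] at hS'
  have h1 := abs_add_le x0 y0
  have h2 := abs_add_le x1 y1
  unfold NN at h
  have e1 : |x0 + y0| = |x0| + |y0| := by linarith
  have e2 : |x1 + y1| = |x1| + |y1| := by linarith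
  have e3 : ∑' n, cc n * |(x0 + y0) - rr n * (x1 + y1)| =
      ∑' n, cc n * |x0 - rr n * x1| + ∑' n, cc n * |y0 - rr n * y1| := by linarith
  have hterm : ∀ n, |(x0 - rr n * x1) + (y0 - rr n * y1)| =
      |x0 - rr n * x1| + |y0 - rr n * y1| := by
    have hs : Summable fun n => (cc n * |x0 - rr n * x1| + cc n * |y0 - rr n * y1|) -
        cc n * |(x0 + y0) - rr n * (x1 + y1)| :=
      ((summable_abs x0 x1).add (summable_abs y0 y1)).sub (summable_abs _ _)
    have h0 : ∑' n, ((cc n * |x0 - rr n * x1| + cc n * |y0 - rr n * y1|) -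
        cc n * |(x0 + y0) - rr n * (x1 + y1)|) = 0 := by
      rw [((summable_abs x0 x1).add (summable_abs y0 y1)).tsum_sub (summable_abs _ _),
        (summable_abs x0 x1).tsum_add (summable_abs y0 y1), e3]
      ring
    have hnn : ∀ n, 0 ≤ (cc n * |x0 - rr n * x1| + cc n * |y0 - rr n * y1|) -
        cc n * |(x0 + y0) - rr n * (x1 + y1)| := by
      intro n
      rw [← mul_add, ← mul_sub]
      refine mul_nonneg (cc_pos n).le ?_
      have : (x0 + y0) - rr n * (x1 + y1) = (x0 - rr n * x1) + (y0 - rr n * y1) := by ring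
      rw [this]
      linarith [abs_add_le (x0 - rr n * x1) (y0 - rr n * y1)]
    have hz := (hasSum_zero_iff_of_nonneg hnn).1 (h0 ▸ hs.hasSum)
    intro n
    have h5 := congrFun hz n
    simp only [Pi.zero_apply] at h5
    rw [← mul_add, ← mul_sub, mul_eq_zero] at h5
    have h6 := h5.resolve_left (cc_pos n).ne'
    have : (x0 + y0) - rr n * (x1 + y1) = (x0 - rr n * x1) + (y0 - rr n * y1) := by ring
    rw [this] at h6
    linarith
  have hpos : ∀ n, 0 ≤ (x0 - rr n * x1) * (y0 - rr n * y1) := by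
    intro n
    have h5 := hterm n
    have h6 : |(x0 - rr n * x1) + (y0 - rr n * y1)| ^ 2 =
      (|x0 - rr n * x1| + |y0 - rr n * y1|) ^ 2 := by rw [h5]
    rw [sq_abs, add_sq, add_sq, sq_abs, sq_abs] at h6
    have h7 : (x0 - rr n * x1) * (y0 - rr n * y1) = |x0 - rr n * x1| * |y0 - rr n * y1| := by
      linarith
    rw [h7]; positivity
  have hall : ∀ r : ℝ, 0 ≤ (x0 - r * x1) * (y0 - r * y1) := by
    intro r
    have hcl : IsClosed {r : ℝ | 0 ≤ (x0 - r * x1) * (y0 - r * y1)} :=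
      isClosed_le continuous_const (by fun_prop)
    have hd : DenseRange rr := TopologicalSpace.denseRange_denseSeq ℝ
    exact hd.induction_on (p := fun r => 0 ≤ (x0 - r * x1) * (y0 - r * y1)) r hcl hpos
  have p0 : 0 ≤ x0 * y0 := by
    have := hall 0; simpa using this
  have p1 : 0 ≤ x1 * y1 := by
    have h6 : |x1 + y1| ^ 2 = (|x1| + |y1|) ^ 2 := by rw [e2]
    rw [sq_abs, add_sq, add_sq, sq_abs, sq_abs] at h6
    have h7 : x1 * y1 = |x1| * |y1| := by linarith
    rw [h7]; positivity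
  refine ⟨p0, p1, ?_⟩
  by_cases hs : x1 + y1 = 0
  · have h8 : y1 = -x1 := by linarith
    rw [h8] at p1 ⊢
    have h9 : x1 = 0 := by nlinarith
    rw [h9]; ring
  · have h8 := hall ((x0 + y0) / (x1 + y1))
    have h9 : (x0 - (x0 + y0) / (x1 + y1) * x1) * (y0 - (x0 + y0) / (x1 + y1) * y1) =
        -((x0 * y1 - x1 * y0) / (x1 + y1)) ^ 2 := by
      field_simp
      ring
    rw [h9] at h8
    have h10 : ((x0 * y1 - x1 * y0) / (x1 + y1)) ^ 2 = 0 := by
      have := sq_nonneg ((x0 * y1 - x1 * y0) / (x1 + y1))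
      linarith
    have h11 := pow_eq_zero_iff (two_ne_zero) |>.1 h10
    rw [div_eq_zero_iff] at h11
    have h12 := h11.resolve_right hs
    linarith

theorem parallel_of_midpoint {x y : V} (hx : x ∈ K1) (hy : y ∈ K1) (hx0 : x ≠ 0)
    (hm : (1 / 2 : ℝ) • (x + y) ∉ interior K1) : y ∈ Submodule.span ℝ {x} := by
  have h1 : NN (x 0) (x 1) ≤ x 2 := hx
  have h2 : NN (y 0) (y 1) ≤ y 2 := hy
  have h3 := NN_add (x 0) (x 1) (y 0) (y 1)
  have h4 : x 2 + y 2 ≤ NN (x 0 + y 0) (x 1 + y 1) := by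
    by_contra h
    push Not at h
    apply hm
    apply K1_regular.interior_smul _ (by norm_num)
    exact mem_interior_K1 (by simpa using h)
  have e1 : NN (x 0) (x 1) = x 2 := by linarith
  have e2 : NN (y 0) (y 1) = y 2 := by linarith
  have e3 : NN (x 0 + y 0) (x 1 + y 1) = NN (x 0) (x 1) + NN (y 0) (y 1) := by linarith
  obtain ⟨p0, p1, p2⟩ := strict_aux e3
  rw [Submodule.mem_span_singleton]
  have key : ∀ l : ℝ, 0 ≤ l → y 0 = l * x 0 → y 1 = l * x 1 → l • x = y := by
    intro l hl h5 h6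
    have h7 : y 2 = l * x 2 := by
      rw [← e2, ← e1, h5, h6, NN_smul, abs_of_nonneg hl]
    ext i
    fin_cases i
    · simpa using h5.symm
    · simpa using h6.symm
    · simpa using h7.symm
  by_cases h0 : x 0 = 0
  · have h1' : x 1 ≠ 0 := by
      intro h1'
      rw [h0, h1'] at e1
      have : x 2 = 0 := by rw [← e1]; simp [NN]
      apply hx0
      ext i
      fin_cases i
      · exact h0
      · exact h1'
      · exact this
    have hy0 : y 0 = 0 := by
      rw [h0, zero_mul] at p2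
      exact (mul_eq_zero.1 p2.symm).resolve_left h1'
    refine ⟨y 1 / x 1, key _ ?_ ?_ ?_⟩
    · have : y 1 / x 1 = (x 1 * y 1) / (x 1) ^ 2 := by field_simp
      rw [this]; positivity
    · rw [hy0, h0, mul_zero]
    · field_simp
  · refine ⟨y 0 / x 0, key _ ?_ ?_ ?_⟩
    · have : y 0 / x 0 = (x 0 * y 0) / (x 0) ^ 2 := by field_simp
      rw [this]; positivity
    · field_simp
    · rw [div_mul_eq_mul_div, eq_div_iff h0]; linarith

theorem no_face_K1 {F : Set V} (hF : IsFace2 K1 F) : False := by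
  have hfr := hF.finrank
  by_cases hint : ∃ m ∈ F, m ∈ interior K1
  · obtain ⟨m, hmF, hm⟩ := hint
    have htop : Submodule.span ℝ F = ⊤ := by
      rw [mem_interior_iff_mem_nhds, Metric.mem_nhds_iff] at hm
      obtain ⟨ε, hε, hb⟩ := hm
      rw [eq_top_iff]
      intro v _
      rcases eq_or_ne v 0 with rfl | hv
      · exact Submodule.zero_mem _
      have hn : 0 < ‖v‖ := norm_pos_iff.2 hv
      set δ := ε / 2 / ‖v‖ with hδ
      have hδ0 : 0 < δ := by positivity
      have hδn : ‖δ • v‖ < ε := by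
        rw [norm_smul, Real.norm_of_nonneg hδ0.le, hδ]
        have : ε / 2 / ‖v‖ * ‖v‖ = ε / 2 := by field_simp
        rw [this]; linarith
      have h1 : m + δ • v ∈ K1 := hb (by rw [mem_ball_iff_norm, add_sub_cancel_left]; exact hδn)
      have h2 : m - δ • v ∈ K1 := hb (by
        rw [mem_ball_iff_norm, sub_sub_cancel_left, norm_neg]; exact hδn)
      have h3 := (hF.face _ h1 _ h2 (by
        have : (1 / 2 : ℝ) • (m + δ • v + (m - δ • v)) = m := by
          rw [add_add_sub_cancel, ← two_smul ℝ m, smul_smul]; norm_num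
        rw [this]; exact hmF)).1
      have h4 : v = δ⁻¹ • ((m + δ • v) - m) := by
        rw [add_sub_cancel_left, smul_smul, inv_mul_cancel₀ hδ0.ne', one_smul]
      rw [h4]
      exact Submodule.smul_mem _ _ (Submodule.sub_mem _ (Submodule.subset_span h3)
        (Submodule.subset_span hmF))
    rw [htop, finrank_top, finrank_V] at hfr
    norm_num at hfr
  · push Not at hint
    by_cases hne : ∃ x ∈ F, x ≠ 0
    · obtain ⟨x, hxF, hx0⟩ := hne
      have hsub : Submodule.span ℝ F ≤ Submodule.span ℝ {x} := by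
        rw [Submodule.span_le]
        intro y hy
        refine parallel_of_midpoint (hF.subset hxF) (hF.subset hy) hx0 ?_
        apply hint
        have := hF.convex hxF hy (a := 1 / 2) (b := 1 / 2) (by norm_num) (by norm_num)
          (by norm_num)
        rwa [← smul_add] at this
      have := Submodule.finrank_mono hsub
      rw [hfr, finrank_span_singleton hx0] at this
      norm_num at this
    · push Not at hne
      have : Submodule.span ℝ F = ⊥ := by
        rw [Submodule.span_eq_bot]; exact hne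
      rw [this, finrank_bot] at hfr
      norm_num at hfr

theorem not_facesDense_K1 : ¬ FacesDense K1 := by
  intro h
  have h0 : (0 : V) ∈ frontier K1 :=
    ⟨subset_closure K1_regular.zero_mem, K1_regular.zero_notMem_interior⟩
  have h1 := h 0 h0
  have h2 : {y : V | ∃ F, IsFace2 K1 F ∧ y ∈ F} = ∅ := by
    ext y
    simp only [mem_setOf_eq, mem_empty_iff_false, iff_false]
    rintro ⟨F, hF, -⟩
    exact no_face_K1 hF
  rw [h2, closure_empty] at h1
  exact h1

end Pool.Agent.H74.Aff
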