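import Pool.Agent.H74.AffExample

set_option autoImplicit false

namespace Pool.Agent.H74.Aff

open Set Filter Topology
open scoped ContDiff RealInnerProductSpace

theorem pos_of_interior_K1 {μ x : V} (hμ : μ ∈ dualCone K1) (hμ0 : μ ≠ 0) (hx : x ∈ interior K1) :
    0 < ⟪μ, x⟫ := by
  have hn : 0 < ‖μ‖ := norm_pos_iff.2 hμ0
  rw [mem_interior_iff_mem_nhds, Metric.mem_nhds_iff] at hx
  obtain ⟨ε, hε, hb⟩ := hx
  have h1 : x - (ε / 2 / ‖μ‖) • μ ∈ K1 := by
    apply hb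
    rw [mem_ball_iff_norm, sub_sub_cancel_left, norm_neg, norm_smul,
      Real.norm_of_nonneg (by positivity)]
    have : ε / 2 / ‖μ‖ * ‖μ‖ = ε / 2 := by field_simp
    rw [this]; linarith
  have h2 := hμ _ h1
  rw [inner_sub_right, inner_smul_right, real_inner_self_eq_norm_sq] at h2
  have h3 : 0 < ε / 2 / ‖μ‖ * ‖μ‖ ^ 2 := by positivity
  linarith

theorem NN_cont_aux (a b a' b' : ℝ) : |NN a b - NN a' b'| ≤ 3 * (|a - a'| + |b - b'|) := by
  have h1 := NN_add a' b' (a - a') (b - b')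
  have h2 := NN_le (a - a') (b - b')
  have h3 := NN_add a b (a' - a) (b' - b)
  have h4 := NN_le (a' - a) (b' - b)
  rw [add_sub_cancel, add_sub_cancel] at h1 h3
  rw [abs_sub_comm a' a, abs_sub_comm b' b] at h4
  rw [abs_le]
  constructor <;> linarith

/-- the exposed face of the dual cone -/
def Fx (x : V) : Set V := {μ | μ ∈ dualCone K1 ∧ ⟪μ, x⟫ = 0}

theorem isFace2_Fx {x μ₁ μ₂ : V} (hx : x ∈ K1) (hx0 : x ≠ 0) (h1 : μ₁ ∈ Fx x) (h2 : μ₂ ∈ Fx x)
    (hli : LinearIndependent ℝ ![μ₁, μ₂]) : IsFace2 (dualCone K1) (Fx x) where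
  subset _ h := h.1
  convex := by
    intro a ha b hb s t hs ht hst
    refine ⟨convex_dualCone K1 ha.1 hb.1 hs ht hst, ?_⟩
    rw [inner_add_left, inner_smul_left, inner_smul_left, ha.2, hb.2]; simp
  face a ha b hb h := by
    have h3 := h.2
    rw [inner_smul_left, inner_add_left] at h3
    have h4 := ha x hx
    have h5 := hb x hx
    simp only [conj_trivial] at h3
    exact ⟨⟨ha, by linarith⟩, ⟨hb, by linarith⟩⟩
  finrank := by
    have : Fact (Module.finrank ℝ V = 2 + 1) := ⟨finrank_V⟩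
    apply le_antisymm
    · have hsub : Submodule.span ℝ (Fx x) ≤ (Submodule.span ℝ {x})ᗮ := by
        rw [Submodule.span_le]
        intro μ hμ
        rw [SetLike.mem_coe, Submodule.mem_orthogonal_singleton_iff_inner_left]
        exact hμ.2
      calc _ ≤ _ := Submodule.finrank_mono hsub
        _ = 2 := Submodule.finrank_orthogonal_span_singleton hx0
    · have hsub : Submodule.span ℝ (Set.range ![μ₁, μ₂]) ≤ Submodule.span ℝ (Fx x) := by
        apply Submodule.span_mono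
        rintro _ ⟨i, rfl⟩
        fin_cases i
        · exact h1
        · exact h2
      calc 2 = Module.finrank ℝ (Submodule.span ℝ (Set.range ![μ₁, μ₂])) := by
            rw [finrank_span_eq_card hli]; simp
        _ ≤ _ := Submodule.finrank_mono hsub

theorem li_pair {μ₁ μ₂ : V} (h1 : μ₁ 2 = 1) (h2 : μ₂ 2 = 1) (hne : μ₁ ≠ μ₂) :
    LinearIndependent ℝ ![μ₁, μ₂] := by
  rw [LinearIndependent.pair_iff]
  intro s t h
  have h3 := congrArg (fun v : V => v 2) h
  simp [h1, h2] at h3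
  have h4 : t = -s := by linarith
  rw [h4, neg_smul, ← sub_eq_add_neg, ← smul_sub, smul_eq_zero] at h
  have h5 := h.resolve_right (sub_ne_zero.2 hne)
  exact ⟨h5, by rw [h4, h5, neg_zero]⟩

theorem mu_two (s t : ℝ) (σ : ℕ → ℝ) : mu s t σ 2 = 1 := rfl

theorem exists_corner_of_zero {x : V} (hx1 : x 1 = 0) (hN : NN (x 0) (x 1) = x 2) :
    ∃ μ₁ μ₂ : V, μ₁ ∈ Fx x ∧ μ₂ ∈ Fx x ∧ μ₁ 2 = 1 ∧ μ₂ 2 = 1 ∧ μ₁ ≠ μ₂ := by
  have hs : ∀ n, |((SignType.sign (x 0 - rr n * x 1) : SignType) : ℝ)| ≤ 1 := fun n => sign_abs _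
  have key : ∀ t : ℝ, |t| ≤ 1 → mu (SignType.sign (x 0)) t
      (fun n => SignType.sign (x 0 - rr n * x 1)) ∈ Fx x := by
    intro t ht
    refine ⟨mu_mem (sign_abs _) ht hs, ?_⟩
    rw [inner_mu hs]
    have h2 : ∀ n, cc n * ((SignType.sign (x 0 - rr n * x 1) : SignType) : ℝ) *
        (x 0 - rr n * x 1) = cc n * |x 0 - rr n * x 1| := by
      intro n
      rw [mul_assoc, sign_mul_self]
    simp_rw [h2, sign_mul_self]
    rw [← hN]
    unfold NN
    rw [hx1]
    simp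
  refine ⟨_, _, key 1 (by simp), key (-1) (by simp), mu_two _ _ _, mu_two _ _ _, ?_⟩
  intro h
  have h3 := congrArg (fun v : V => v 1) h
  simp [mu] at h3
  linarith

theorem exists_corner_of_rr {x : V} {n : ℕ} (hx1 : x 0 = rr n * x 1)
    (hN : NN (x 0) (x 1) = x 2) :
    ∃ μ₁ μ₂ : V, μ₁ ∈ Fx x ∧ μ₂ ∈ Fx x ∧ μ₁ 2 = 1 ∧ μ₂ 2 = 1 ∧ μ₁ ≠ μ₂ := by
  classical
  set σ : ℝ → ℕ → ℝ := fun ε m => if m = n then ε else SignType.sign (x 0 - rr m * x 1) with hσd
  have hs : ∀ ε : ℝ, |ε| ≤ 1 → ∀ m, |σ ε m| ≤ 1 := by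
    intro ε hε m
    simp only [hσd]
    split_ifs
    · exact hε
    · exact sign_abs _
  have key : ∀ ε : ℝ, |ε| ≤ 1 → mu (SignType.sign (x 0)) (SignType.sign (x 1)) (σ ε) ∈ Fx x := by
    intro ε hε
    refine ⟨mu_mem (sign_abs _) (sign_abs _) (hs ε hε), ?_⟩
    rw [inner_mu (hs ε hε)]
    have h2 : ∀ m, cc m * σ ε m * (x 0 - rr m * x 1) = cc m * |x 0 - rr m * x 1| := by
      intro m
      simp only [hσd]
      split_ifs with h
      · rw [h, hx1]; simp
      · rw [mul_assoc, sign_mul_self]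
    simp_rw [h2, sign_mul_self]
    rw [← hN]
    unfold NN
    ring
  refine ⟨_, _, key 1 (by simp), key (-1) (by simp), mu_two _ _ _, mu_two _ _ _, ?_⟩
  intro h
  have h3 := congrArg (fun v : V => v 0) h
  have h4 : ∑' m, cc m * σ 1 m * (1 - rr m * 0) - ∑' m, cc m * σ (-1) m * (1 - rr m * 0) =
      2 * cc n := by
    rw [← (summable_cc (hs 1 (by simp)) 1 0).tsum_sub (summable_cc (hs (-1) (by simp)) 1 0)]
    rw [tsum_eq_single n]
    · simp [hσd]; ring
    · intro m hm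
      simp [hσd, hm]
  have h5 : -(((SignType.sign (x 0) : SignType) : ℝ) + ∑' m, cc m * σ 1 m * (1 - rr m * 0)) =
    -(((SignType.sign (x 0) : SignType) : ℝ) + ∑' m, cc m * σ (-1) m * (1 - rr m * 0)) := h3
  have := cc_pos n
  linarith

theorem facesDense_K2 : FacesDense (dualCone K1) := by
  intro ν hν
  have hνK : ν ∈ dualCone K1 := (isClosed_dualCone K1).closure_eq ▸ hν.1
  rcases eq_or_ne ν 0 with rfl | hν0
  · -- the vertex
    set x : V := !₂[1, 0, NN 1 0] with hx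
    have hxN : NN (x 0) (x 1) = x 2 := by simp [hx]
    have hxK : x ∈ K1 := hxN.le
    have hx0 : x ≠ 0 := by
      intro h
      have := congrArg (fun v : V => v 0) h
      simp [hx] at this
    obtain ⟨μ₁, μ₂, m1, m2, t1, t2, hne⟩ := exists_corner_of_zero (x := x) (by simp [hx]) hxN
    exact subset_closure ⟨Fx x, isFace2_Fx hxK hx0 m1 m2 (li_pair t1 t2 hne),
      ⟨hνK, inner_zero_left _⟩⟩
  obtain ⟨x, hxK, hx0, hνx⟩ : ∃ x ∈ K1, x ≠ 0 ∧ ⟪ν, x⟫ ≤ 0 := by
    by_contra hcon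
    push Not at hcon
    exact hν.2 (K1_regular.mem_interior_dual hcon)
  have hνx' : ⟪ν, x⟫ = 0 := le_antisymm hνx (hνK x hxK)
  have hxint : x ∉ interior K1 := fun h => by
    have := pos_of_interior_K1 hνK hν0 h
    linarith
  have hxN : NN (x 0) (x 1) = x 2 := by
    by_contra hne
    exact hxint (mem_interior_K1 (lt_of_le_of_ne hxK hne))
  by_cases hx1 : x 1 = 0
  · obtain ⟨μ₁, μ₂, m1, m2, t1, t2, hne⟩ := exists_corner_of_zero hx1 hxN
    exact subset_closure ⟨Fx x, isFace2_Fx hxK hx0 m1 m2 (li_pair t1 t2 hne), ⟨hνK, hνx'⟩⟩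
  -- approximate by corner directions
  have hd : DenseRange rr := TopologicalSpace.denseRange_denseSeq ℝ
  have hex : ∀ k : ℕ, ∃ n, |rr n - x 0 / x 1| < 1 / ((k : ℝ) + 1) := by
    intro k
    obtain ⟨n, hn⟩ := hd.exists_dist_lt (x 0 / x 1) (show (0 : ℝ) < 1 / ((k : ℝ) + 1) by positivity)
    exact ⟨n, by rw [abs_sub_comm, ← Real.dist_eq]; exact hn⟩
  choose n hn using hex
  have hrr : Tendsto (fun k => rr (n k)) atTop (𝓝 (x 0 / x 1)) := by
    rw [tendsto_iff_norm_sub_tendsto_zero]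
    exact squeeze_zero (fun _ => norm_nonneg _) (fun k => (hn k).le)
      tendsto_one_div_add_atTop_nhds_zero_nat
  set y : ℕ → V := fun k => !₂[rr (n k) * x 1, x 1, NN (rr (n k) * x 1) (x 1)] with hy
  have hyN : ∀ k, NN (y k 0) (y k 1) = y k 2 := fun k => by simp [hy]
  have hyK : ∀ k, y k ∈ K1 := fun k => (hyN k).le
  have hy0 : ∀ k, y k ≠ 0 := by
    intro k h
    have := congrArg (fun v : V => v 1) h
    simp [hy] at this
    exact hx1 this
  have ht0 : Tendsto (fun k => rr (n k) * x 1) atTop (𝓝 (x 0)) := by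
    have := hrr.mul_const (x 1)
    rwa [div_mul_cancel₀ _ hx1] at this
  have htN : Tendsto (fun k => NN (rr (n k) * x 1) (x 1)) atTop (𝓝 (NN (x 0) (x 1))) := by
    rw [tendsto_iff_norm_sub_tendsto_zero]
    refine squeeze_zero (fun _ => norm_nonneg _) (fun k => NN_cont_aux _ _ _ _) ?_
    have h1 : Tendsto (fun k => 3 * (|rr (n k) * x 1 - x 0| + |x 1 - x 1|)) atTop
        (𝓝 (3 * (|x 0 - x 0| + |x 1 - x 1|))) :=
      (((ht0.sub_const _).abs).add tendsto_const_nhds).const_mul 3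
    simpa using h1
  choose μ μ' hμ _ hμ2 _ _ using fun k => exists_corner_of_rr (x := y k) (n := n k) (by simp [hy])
    (hyN k)
  have hface : ∀ k, IsFace2 (dualCone K1) (Fx (y k)) := by
    intro k
    obtain ⟨μ₁, μ₂, m1, m2, t1, t2, hne⟩ := exists_corner_of_rr (x := y k) (n := n k)
      (by simp [hy]) (hyN k)
    exact isFace2_Fx (hyK k) (hy0 k) m1 m2 (li_pair t1 t2 hne)
  -- boundedness
  have hemem : (!₂[0, 0, 1] : V) ∈ interior K1 := mem_interior_K1 (by simp [NN])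
  obtain ⟨c, hc, hbd⟩ := K2_regular.exists_bound (ν := !₂[0, 0, 1]) (fun ξ hξ hξ0 => by
    rw [real_inner_comm]
    exact pos_of_interior_K1 hξ hξ0 hemem)
  have hbound : ∀ k, μ k ∈ Metric.closedBall (0 : V) (1 / c) := by
    intro k
    have h1 := hbd (μ k) (hμ k).1
    rw [inner3] at h1
    simp [hμ2] at h1
    rw [mem_closedBall_zero_iff, le_div_iff₀ hc]
    linarith
  obtain ⟨μl, -, φ, hφ, hlim⟩ := (isCompact_closedBall (0 : V) (1 / c)).tendsto_subseq hbound
  have hmK : μl ∈ dualCone K1 := (isClosed_dualCone K1).mem_of_tendsto hlim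
    (Eventually.of_forall fun k => (hμ (φ k)).1)
  have hcoord : ∀ i : Fin 3, Tendsto (fun k => μ (φ k) i) atTop (𝓝 (μl i)) := fun i =>
    ((EuclideanSpace.proj (𝕜 := ℝ) i).continuous.tendsto μl).comp hlim
  have hm2 : μl 2 = 1 := by
    refine tendsto_nhds_unique (hcoord 2) ?_
    simp only [hμ2]
    exact tendsto_const_nhds
  have hmx : ⟪μl, x⟫ = 0 := by
    have h1 : Tendsto (fun k => ⟪μ (φ k), y (φ k)⟫) atTop (𝓝 ⟪μl, x⟫) := by
      simp only [inner3]
      have a0 : Tendsto (fun k => y (φ k) 0) atTop (𝓝 (x 0)) := ht0.comp hφ.tendsto_atTop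
      have a1 : Tendsto (fun k => y (φ k) 1) atTop (𝓝 (x 1)) := tendsto_const_nhds
      have a2 : Tendsto (fun k => y (φ k) 2) atTop (𝓝 (x 2)) := by
        rw [← hxN]; exact htN.comp hφ.tendsto_atTop
      exact (((hcoord 0).mul a0).add ((hcoord 1).mul a1)).add ((hcoord 2).mul a2)
    refine tendsto_nhds_unique h1 ?_
    simp only [(hμ _).2]
    exact tendsto_const_nhds
  have hν2 : 0 ≤ ν 2 := by
    have := hνK _ (interior_subset hemem)
    rw [inner3] at this
    simpa using this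
  by_cases hpar : ν = ν 2 • μl
  · rw [hpar]
    refine mem_closure_of_tendsto (hlim.const_smul (ν 2)) (Eventually.of_forall fun k => ?_)
    refine ⟨Fx (y (φ k)), hface _, smul_mem_dualCone (hμ _).1 hν2, ?_⟩
    change ⟪ν 2 • μ (φ k), _⟫ = _
    rw [inner_smul_left, (hμ _).2, mul_zero]
  · refine subset_closure ⟨Fx x, isFace2_Fx hxK hx0 (μ₁ := ν) (μ₂ := μl) ⟨hνK, hνx'⟩ ⟨hmK, hmx⟩ ?_,
      ⟨hνK, hνx'⟩⟩
    rw [LinearIndependent.pair_iff]
    intro s t h
    have h3 := congrArg (fun v : V => v 2) h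
    simp [hm2] at h3
    have h4 : t = -(s * ν 2) := by linarith
    rw [h4, neg_smul, ← sub_eq_add_neg, mul_smul, ← smul_sub, smul_eq_zero] at h
    have h5 := h.resolve_right (sub_ne_zero.2 hpar)
    exact ⟨h5, by rw [h4, h5]; simp⟩

end Pool.Agent.H74.Aff
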