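import Pool.Agent.H74.AffDefs

set_option autoImplicit false

namespace Pool.Agent.H74.Aff

open Set Filter Topology
open scoped ContDiff RealInnerProductSpace

theorem inner3 (a b : V) : ⟪a, b⟫ = a 0 * b 0 + a 1 * b 1 + a 2 * b 2 := by
  simp [PiLp.inner_apply, Fin.sum_univ_three, mul_comm]

@[simp] theorem cross_zero' (a b : V) : cross a b 0 = a 1 * b 2 - a 2 * b 1 := rfl
@[simp] theorem cross_one' (a b : V) : cross a b 1 = a 2 * b 0 - a 0 * b 2 := rfl
@[simp] theorem cross_two' (a b : V) : cross a b 2 = a 0 * b 1 - a 1 * b 0 := rfl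

theorem inner_cross_left (a b : V) : ⟪cross a b, a⟫ = 0 := by
  rw [inner3]; simp; ring

theorem inner_cross_right (a b : V) : ⟪cross a b, b⟫ = 0 := by
  rw [inner3]; simp; ring

theorem det3_mul (a b c a' b' c' : V) : det3 a b c * det3 a' b' c' =
    ⟪a, a'⟫ * (⟪b, b'⟫ * ⟪c, c'⟫ - ⟪b, c'⟫ * ⟪c, b'⟫) -
    ⟪a, b'⟫ * (⟪b, a'⟫ * ⟪c, c'⟫ - ⟪b, c'⟫ * ⟪c, a'⟫) +
    ⟪a, c'⟫ * (⟪b, a'⟫ * ⟪c, b'⟫ - ⟪b, b'⟫ * ⟪c, a'⟫) := by
  simp only [det3, inner3, cross_zero', cross_one', cross_two']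
  ring

/-- the conormal -/
noncomputable def conormal (f : ℝ × ℝ → V) (p : ℝ × ℝ) : V :=
  (vol f p)⁻¹ • cross (D1 f p (1, 0)) (D1 f p (0, 1))

theorem D1_eq (f : ℝ × ℝ → V) (p X : ℝ × ℝ) :
    D1 f p X = X.1 • D1 f p (1, 0) + X.2 • D1 f p (0, 1) := by
  have : X = X.1 • ((1 : ℝ), (0 : ℝ)) + X.2 • ((0 : ℝ), (1 : ℝ)) := by
    ext <;> simp
  unfold D1
  conv_lhs => rw [this]
  rw [map_add, map_smul, map_smul]

section
variable {f : ℝ × ℝ → V}

theorem inner_conormal_self {p : ℝ × ℝ} (h : vol f p ≠ 0) : ⟪conormal f p, f p⟫ = 1 := by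
  unfold conormal
  rw [inner_smul_left]
  change (vol f p)⁻¹ * vol f p = 1
  exact inv_mul_cancel₀ h

theorem inner_conormal_D1 (f : ℝ × ℝ → V) (p X : ℝ × ℝ) : ⟪conormal f p, D1 f p X⟫ = 0 := by
  rw [D1_eq]
  unfold conormal
  rw [inner_smul_left, inner_add_right, inner_smul_right, inner_smul_right, inner_cross_left,
    inner_cross_right]
  simp

theorem inner_conormal_D2 (f : ℝ × ℝ → V) (p X Y : ℝ × ℝ) :
    ⟪conormal f p, D2 f p X Y⟫ = blaschke f p X Y := by
  unfold conormal blaschke det3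
  rw [inner_smul_left]
  simp [div_eq_inv_mul]

theorem contDiff_D1 (hf : ContDiff ℝ ∞ f) (X : ℝ × ℝ) : ContDiff ℝ ∞ fun p => D1 f p X :=
  (hf.fderiv_right (m := ∞) (by simp)).clm_apply contDiff_const

theorem contDiff_cross {a b : ℝ × ℝ → V} (ha : ContDiff ℝ ∞ a) (hb : ContDiff ℝ ∞ b) :
    ContDiff ℝ ∞ fun p => cross (a p) (b p) := by
  rw [contDiff_euclidean]
  have ha' := fun i => (contDiff_euclidean.1 ha) i
  have hb' := fun i => (contDiff_euclidean.1 hb) i
  intro i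
  fin_cases i
  · exact ((ha' 1).mul (hb' 2)).sub ((ha' 2).mul (hb' 1))
  · exact ((ha' 2).mul (hb' 0)).sub ((ha' 0).mul (hb' 2))
  · exact ((ha' 0).mul (hb' 1)).sub ((ha' 1).mul (hb' 0))

theorem contDiff_conormal (hf : ContDiff ℝ ∞ f) (hv : ∀ p, vol f p ≠ 0) :
    ContDiff ℝ ∞ (conormal f) := by
  have h1 := contDiff_cross (contDiff_D1 hf (1, 0)) (contDiff_D1 hf (0, 1))
  exact ((h1.inner ℝ hf).inv hv).smul h1

end

namespace IsHyperbolicAffineSphere

variable {f : ℝ × ℝ → V} (hf : IsHyperbolicAffineSphere f)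
include hf

theorem inner_self (p : ℝ × ℝ) : ⟪conormal f p, f p⟫ = 1 := inner_conormal_self (hf.transversal p)

theorem conormal_smooth : ContDiff ℝ ∞ (conormal f) := contDiff_conormal hf.smooth hf.transversal

theorem inner_D1_conormal (p X : ℝ × ℝ) : ⟪D1 (conormal f) p X, f p⟫ = 0 := by
  have h1 : fderiv ℝ (fun q => ⟪conormal f q, f q⟫) p X =
      ⟪conormal f p, fderiv ℝ f p X⟫ + ⟪fderiv ℝ (conormal f) p X, f p⟫ :=
    fderiv_inner_apply (𝕜 := ℝ) (hf.conormal_smooth.differentiable (by simp) p)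
      (hf.smooth.differentiable (by simp) p) X
  have h2 : (fun q => ⟪conormal f q, f q⟫) = fun _ => (1 : ℝ) := funext hf.inner_self
  rw [h2] at h1
  have h3 := inner_conormal_D1 f p X
  unfold D1 at h3 ⊢
  rw [h3] at h1
  simpa using h1.symm

omit hf in
theorem hasFDerivAt_D1 {g : ℝ × ℝ → V} (hg : ContDiff ℝ ∞ g) (p Y : ℝ × ℝ) (X : ℝ × ℝ) :
    fderiv ℝ (fun q => D1 g q Y) p X = D2 g p X Y := by
  have h : DifferentiableAt ℝ (fderiv ℝ g) p :=
    ((hg.fderiv_right (m := ∞) (by simp)).differentiable (by simp)) p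
  have := (h.hasFDerivAt.clm_apply (hasFDerivAt_const Y p)).fderiv
  unfold D2
  have e : (fun q => D1 g q Y) = fun q => (fderiv ℝ g q) Y := rfl
  rw [e, this]
  simp

theorem inner_D1_D1 (p X Y : ℝ × ℝ) : ⟪D1 (conormal f) p X, D1 f p Y⟫ = - blaschke f p X Y := by
  have hd := contDiff_D1 hf.smooth Y
  have h1 : fderiv ℝ (fun q => ⟪conormal f q, D1 f q Y⟫) p X =
      ⟪conormal f p, fderiv ℝ (fun q => D1 f q Y) p X⟫ + ⟪fderiv ℝ (conormal f) p X, D1 f p Y⟫ :=
    fderiv_inner_apply (𝕜 := ℝ) (hf.conormal_smooth.differentiable (by simp) p)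
      (hd.differentiable (by simp) p) X
  have h2 : (fun q => ⟪conormal f q, D1 f q Y⟫) = fun _ => (0 : ℝ) :=
    funext fun q => inner_conormal_D1 f q Y
  rw [h2, hasFDerivAt_D1 hf.smooth, inner_conormal_D2] at h1
  have h3 : (0 : ℝ) = blaschke f p X Y + ⟪fderiv ℝ (conormal f) p X, D1 f p Y⟫ := by
    simpa using h1
  unfold D1 at h3 ⊢
  linarith

theorem blaschke_symm (p X Y : ℝ × ℝ) : blaschke f p X Y = blaschke f p Y X := by
  have h : IsSymmSndFDerivAt ℝ f p := by
    apply (hf.smooth.contDiffAt).isSymmSndFDerivAt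
    simp only [minSmoothness_of_isRCLikeNormedField]
    exact WithTop.coe_le_coe.2 le_top
  have : D2 f p X Y = D2 f p Y X := h X Y
  unfold blaschke
  rw [this]

theorem inner_D2_conormal (p X Y : ℝ × ℝ) : ⟪D2 (conormal f) p X Y, f p⟫ = blaschke f p X Y := by
  have hd := contDiff_D1 hf.conormal_smooth Y
  have h1 : fderiv ℝ (fun q => ⟪D1 (conormal f) q Y, f q⟫) p X =
      ⟪D1 (conormal f) p Y, fderiv ℝ f p X⟫ +
        ⟪fderiv ℝ (fun q => D1 (conormal f) q Y) p X, f p⟫ :=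
    fderiv_inner_apply (𝕜 := ℝ) (hd.differentiable (by simp) p)
      (hf.smooth.differentiable (by simp) p) X
  have h2 : (fun q => ⟪D1 (conormal f) q Y, f q⟫) = fun _ => (0 : ℝ) :=
    funext fun q => hf.inner_D1_conormal q Y
  rw [h2, hasFDerivAt_D1 hf.conormal_smooth] at h1
  have h3 := hf.inner_D1_D1 p Y X
  have h4 : (0 : ℝ) = ⟪D1 (conormal f) p Y, D1 f p X⟫ + ⟪D2 (conormal f) p X Y, f p⟫ := by
    simpa [D1] using h1
  rw [h3] at h4
  have h5 := hf.blaschke_symm p X Y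
  linarith

/-- the product of the two volumes -/
theorem vol_conormal_mul (p : ℝ × ℝ) : vol (conormal f) p * vol f p =
    blaschke f p (1, 0) (1, 0) * blaschke f p (0, 1) (0, 1) - blaschke f p (1, 0) (0, 1) ^ 2 := by
  unfold vol
  rw [det3_mul, hf.inner_D1_D1, hf.inner_D1_D1, hf.inner_D1_D1, hf.inner_D1_D1,
    hf.inner_D1_conormal, hf.inner_D1_conormal, inner_conormal_D1, inner_conormal_D1, hf.inner_self,
    hf.blaschke_symm p (0, 1) (1, 0)]
  ring

theorem vol_conormal_mul' (p X Y : ℝ × ℝ) :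
    det3 (D1 (conormal f) p (1, 0)) (D1 (conormal f) p (0, 1)) (D2 (conormal f) p X Y) * vol f p =
    (blaschke f p (1, 0) (1, 0) * blaschke f p (0, 1) (0, 1) - blaschke f p (1, 0) (0, 1) ^ 2) *
      blaschke f p X Y := by
  unfold vol
  rw [det3_mul, hf.inner_D1_D1, hf.inner_D1_D1, hf.inner_D1_D1, hf.inner_D1_D1,
    hf.inner_D1_conormal, hf.inner_D1_conormal, hf.inner_D2_conormal,
    hf.blaschke_symm p (0, 1) (1, 0)]
  ring

theorem vol_conormal_ne (p : ℝ × ℝ) : vol (conormal f) p ≠ 0 := by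
  intro h
  have h1 := hf.vol_conormal_mul p
  rw [h, zero_mul, ← hf.volume] at h1
  exact hf.transversal p (pow_eq_zero_iff (two_ne_zero) |>.1 h1.symm)

/-- the conormal surface has the same affine metric -/
theorem blaschke_conormal (p X Y : ℝ × ℝ) : blaschke (conormal f) p X Y = blaschke f p X Y := by
  have h1 := hf.vol_conormal_mul p
  have h2 := hf.vol_conormal_mul' p X Y
  have h3 := hf.vol_conormal_ne p
  have h4 := hf.transversal p
  change det3 (D1 (conormal f) p (1, 0)) (D1 (conormal f) p (0, 1)) (D2 (conormal f) p X Y) /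
    vol (conormal f) p = _
  rw [div_eq_iff h3]
  rw [← h1] at h2
  have h5 : (det3 (D1 (conormal f) p (1, 0)) (D1 (conormal f) p (0, 1)) (D2 (conormal f) p X Y)) *
      vol f p = (blaschke f p X Y * vol (conormal f) p) * vol f p := by
    rw [h2]; ring
  exact mul_right_cancel₀ h4 h5

/-- the conormal surface is a hyperbolic affine sphere -/
theorem dual : IsHyperbolicAffineSphere (conormal f) where
  smooth := hf.conormal_smooth
  transversal := hf.vol_conormal_ne
  pos p X hX := by rw [hf.blaschke_conormal]; exact hf.pos p X hX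
  volume p := by
    rw [hf.blaschke_conormal, hf.blaschke_conormal, hf.blaschke_conormal]
    have h1 := hf.vol_conormal_mul p
    have h2 := hf.volume p
    have h4 := hf.transversal p
    rw [← h2] at h1 ⊢
    have h5 : vol (conormal f) p = vol f p := by
      apply mul_right_cancel₀ h4
      rw [h1]; ring
    rw [h5]

theorem blaschke_conormal_eq : blaschke (conormal f) = blaschke f := by
  funext p X Y
  exact hf.blaschke_conormal p X Y

end IsHyperbolicAffineSphere

end Pool.Agent.H74.Aff
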